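import Pool.Agent.Y482.DX.CvE
import Pool.Agent.Y481.DR.Final
import Pool.Agent.H309R4.Jones.SanU
import Pool.Agent.H550R3.Jones.SanSkein699
import Pool.Agent.H927R2.J.SanYB
import Pool.Agent.H309R4.Jones.SanI
import Pool.Agent.H105R3.JSanCurl
import Pool.Agent.H22R3.J.Nat

/-!
# The complexified volume conjecture along the odd integers for links on Conway's polyhedra `(2 k)*`

Let `k ≥ 1` and `m` be integers, and let `t_1, u_1, …, t_k, u_k` be weighted planar trees.  The
tangle of a weighted tree (an arborescent, or algebraic, tangle; Conway, Bonahon and Siebenmann,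
Gabai) is obtained by plumbing bands with `a` half twists, one band for every vertex, `a` being the
weight of the vertex.  Let `T_i` be the tangle of `t_i` on the strands 1, 2 and `U_i` that of `u_i`
on the strands 2, 3.  The links considered here are the closures of
`(s_1 s_2 s_1)^{2 m} T_1 U_1 ⋯ T_k U_k`: the `2 k` tangles are arranged in a ring, with `m` full
twists of the three strands.  For `m = 0` and `k ≥ 3` these are the links obtained from Conway's
basic polyhedron `(2 k)*` (`6*`, `8*`, `10*`, …) by substituting the tangles for the vertices.  If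
all trees are single vertices, then the link is a closed 3-braid.  In general the link is neither
arborescent nor a closed 3-braid.

The roots of the `2 k` trees have weights of absolute value at least `M(D)` and at most `D`
children; for all other vertices it is enough that `K² ≤ n² + a²` (`a` the weight and `n` the number
of neighbours) with an absolute constant `K`, or that there is a crossing circle at the vertex, which
is then a component of the link.  The signs are arbitrary, and so are `k` and `m`.  The case
`(k, m) = (1, 0)` is excluded (these links are arborescent or connected sums).  The links with `m < 0`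
are the mirror images of those with `m > 0`; so the statement is formulated for `m ≥ 0`, for the link
and its mirror image.

The invariants are defined from the R-matrix of `U_q(sl_2)`, with `v = q^{1/2}` and
`{k} = v^k - v^{-k}`.  The Kashaev invariant is the value of the coloured Jones polynomial at
`v = exp (π i / N)`, that is `q = exp (2 π i / N)`.

The volume is the maximal volume of the angle structures of an ideal decomposition, and the
Chern-Simons invariant is given by Neumann's formula (W. Neumann, Extended Bloch group and the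
Cheeger-Chern-Simons class): for a decomposition of a hyperbolic manifold into ideal tetrahedra
(some of the cusps may be filled), with compatible orders of the ideal vertices and a flattening,
`i (vol + i CS) = ∑ ± L(z; p, q)` modulo `π²`, where the sum runs over the tetrahedra and `L` is the
extended Rogers dilogarithm.
-/

set_option autoImplicit false

namespace Pool.Agent.Results.MP_b30479_gt.PolyhedralLinksOdd

open Finset Filter Topology Matrix

/-! ### Weighted trees -/

/-- Weighted rooted planar trees with crossing circles: `single b a` is one vertex of weight `a`,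
with a crossing circle if `b = true`; `join t c` is the tree `t` with the tree `c` attached, by an
edge between the roots; the root of `join t c` is that of `t`, and the root of `c` is its last
child. -/
inductive Tree
  | single (b : Bool) (a : ℤ)
  | join (t c : Tree)

namespace Tree

/-- The weight of the root. -/
def weight : Tree → ℤ
  | single _ a => a
  | join t _ => t.weight

/-- Is there a crossing circle at the root? -/
def circle : Tree → Bool
  | single b _ => b
  | join t _ => t.circle

/-- The number of children of the root. -/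
def children : Tree → ℕ
  | single _ _ => 0
  | join t _ => t.children + 1

/-- A vertex with `n` neighbours and weight `a` is large: `K² ≤ n² + a²`; a vertex with a crossing
circle is always large.  For instance it is large if `|a| ≥ K`, or if `n ≥ K`. -/
def Big (K : ℕ) (b : Bool) (n : ℕ) (a : ℤ) : Prop :=
  b = true ∨ (K : ℤ) ^ 2 ≤ (n : ℤ) ^ 2 + a ^ 2

/-- The vertices other than the root are large. -/
def LargeBelow (K : ℕ) : Tree → Prop
  | single _ _ => True
  | join t c => t.LargeBelow K ∧ c.LargeBelow K ∧ Big K c.circle (c.children + 1) c.weight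

/-- The trees admitted in the ring: the root has no crossing circle, at most `D` children and a
weight of absolute value at least `M`, and the other vertices are large. -/
def Admissible (K D M : ℕ) (t : Tree) : Prop :=
  t.circle = false ∧ t.children ≤ D ∧ (M : ℤ) ≤ |t.weight| ∧ t.LargeBelow K

/-- The mirror image: all weights are negated. -/
def mirror : Tree → Tree
  | single b a => single b (-a)
  | join t c => join t.mirror c.mirror

end Tree

/-! ### The coloured Jones polynomial -/

/-- `{n} = v^n - v^{-n}` -/
noncomputable def br (v : ℂ) (n : ℤ) : ℂ := v ^ n - v ^ (-n)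

/-- `{n}! = {1} {2} ⋯ {n}` -/
noncomputable def brf (v : ℂ) (n : ℕ) : ℂ := ∏ j ∈ range n, br v ((j : ℤ) + 1)

/-- The positive crossing: the R-matrix of `U_q(sl_2)` on `V_N ⊗ V_N`, `V_N` with basis
`e_0, …, e_{N-1}`, times the framing factor `v^{-(N^2-1)/2}`; `crossP N v p q` is the coefficient
of `e_{p.1} ⊗ e_{p.2}` in the image of `e_{q.1} ⊗ e_{q.2}`:
`e_i ⊗ e_j ↦ ∑_n v^{-(N-1)(1+i+j) + 2(i-n)(j+n) + n(n-1)/2}
({j+n}! / ({j}! {n}!)) ∏_{t<n} {N-i+t} e_{j+n} ⊗ e_{i-n}`. -/
noncomputable def crossP (N : ℕ) (v : ℂ) : Matrix (Fin N × Fin N) (Fin N × Fin N) ℂ :=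
  fun p q => if (p.1 : ℕ) + p.2 = q.1 + q.2 ∧ (q.2 : ℕ) ≤ p.1 then
    v ^ (-((N : ℤ) - 1) * (1 + (q.1 : ℕ) + (q.2 : ℕ)) + 2 * (p.1 : ℕ) * (p.2 : ℕ)) *
      v ^ (((p.1 : ℕ) - q.2) * ((p.1 : ℕ) - q.2 - 1) / 2) *
      (brf v p.1 / (brf v q.2 * brf v ((p.1 : ℕ) - q.2))) *
      ∏ t ∈ range ((p.1 : ℕ) - q.2), br v ((N : ℤ) - (q.1 : ℕ) + t)
    else 0

/-- The negative crossing, inverse of `crossP N v`:
`e_i ⊗ e_j ↦ ∑_n (-1)^n v^{(N-1)(1+i+j) - 2ij - n(n-1)/2}
({i+n}! / ({i}! {n}!)) ∏_{t<n} {N-j+t} e_{j-n} ⊗ e_{i+n}`. -/
noncomputable def crossN (N : ℕ) (v : ℂ) : Matrix (Fin N × Fin N) (Fin N × Fin N) ℂ :=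
  fun p q => if (p.1 : ℕ) + p.2 = q.1 + q.2 ∧ (q.1 : ℕ) ≤ p.2 then
    (-1) ^ ((p.2 : ℕ) - q.1) *
      v ^ (((N : ℤ) - 1) * (1 + (q.1 : ℕ) + (q.2 : ℕ)) - 2 * (q.1 : ℕ) * (q.2 : ℕ)) /
      v ^ (((p.2 : ℕ) - q.1) * ((p.2 : ℕ) - q.1 - 1) / 2) *
      (brf v p.2 / (brf v q.1 * brf v ((p.2 : ℕ) - q.1))) *
      ∏ t ∈ range ((p.2 : ℕ) - q.1), br v ((N : ℤ) - (q.2 : ℕ) + t)
    else 0

/-- The coefficients of the invariant vector (cup) `∑_j cup_j e_j ⊗ e_{N-1-j}` of `V_N ⊗ V_N`; the
invariant form (cap) has the values `1 / cup_l` at `e_{N-1-l} ⊗ e_l`. -/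
noncomputable def cup (N : ℕ) (v : ℂ) (j : ℕ) : ℂ :=
  (-1) ^ j * (brf v j * brf v (N - 1 - j)) * v ^ ((j : ℤ) * ((N : ℤ) - 2 - j))

/-- Rotation of a tangle by a quarter turn: the operator
`(1 ⊗ 1 ⊗ cap) (1 ⊗ A ⊗ 1) (cup ⊗ 1 ⊗ 1)` of `V_N ⊗ V_N`. -/
noncomputable def rot (N : ℕ) (v : ℂ) (A : Matrix (Fin N × Fin N) (Fin N × Fin N) ℂ) :
    Matrix (Fin N × Fin N) (Fin N × Fin N) ℂ :=
  fun p q => cup N v p.1 / cup N v q.2 * A (p.2, Fin.rev q.2) (Fin.rev p.1, q.1)

/-- An operator of `V_N ⊗ V_N` on the first two factors of `V_N ⊗ (V_N ⊗ V_N)`. -/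
def on12 {N : ℕ} (A : Matrix (Fin N × Fin N) (Fin N × Fin N) ℂ) :
    Matrix (Fin N × Fin N × Fin N) (Fin N × Fin N × Fin N) ℂ :=
  fun p q => if p.2.2 = q.2.2 then A (p.1, p.2.1) (q.1, q.2.1) else 0

/-- An operator of `V_N ⊗ V_N` on the last two factors of `V_N ⊗ (V_N ⊗ V_N)`. -/
def on23 {N : ℕ} (A : Matrix (Fin N × Fin N) (Fin N × Fin N) ℂ) :
    Matrix (Fin N × Fin N × Fin N) (Fin N × Fin N × Fin N) ℂ :=
  fun p q => if p.1 = q.1 then A p.2 q.2 else 0

/-- The operator on `V_N ⊗ V_N` of a crossing circle: a third strand passes around the first two (it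
crosses the second, the first, again the first and again the second strand), and is closed by the
quantum trace. -/
noncomputable def belt (N : ℕ) (v : ℂ) : Matrix (Fin N × Fin N) (Fin N × Fin N) ℂ :=
  fun p q => ∑ x : Fin N, v ^ ((N : ℤ) - 1 - 2 * (x : ℕ)) *
    (on23 (crossP N v) * (on12 (crossP N v) * (on12 (crossP N v) * on23 (crossP N v))))
      (p.1, (p.2, x)) (q.1, (q.2, x))

/-- The operator on `V_N ⊗ V_N` of a vertex: `a` crossings, and the crossing circle if there is
one. -/
noncomputable def vertex (N : ℕ) (v : ℂ) (b : Bool) (a : ℤ) :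
    Matrix (Fin N × Fin N) (Fin N × Fin N) ℂ :=
  (if b then belt N v else 1) * (if 0 ≤ a then crossP N v ^ a.toNat else crossN N v ^ (-a).toNat)

/-- The operator on `V_N ⊗ V_N` of the tangle of a weighted tree: `a` crossings of the two strands,
`a` being the weight of the root, and the rotated (by a quarter turn) tangles of the children of the
root, all stacked on top of each other; the first factor is on top. -/
noncomputable def tangle (N : ℕ) (v : ℂ) : Tree → Matrix (Fin N × Fin N) (Fin N × Fin N) ℂ
  | .single b a => vertex N v b a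
  | .join t c => tangle N v t * rot N v (tangle N v c)

/-- The matrix `A` at the places `k` and `k + 1` (counted from `0`) of `n` strands; for the matrix of
a crossing it is the braid generator. -/
def gen {ι : Type} [DecidableEq ι] (A : Matrix (ι × ι) (ι × ι) ℂ) (n k : ℕ) :
    Matrix (Fin n → ι) (Fin n → ι) ℂ :=
  fun s t => if h : k + 1 < n then
    (if ∀ j : Fin n, (j : ℕ) ≠ k → (j : ℕ) ≠ k + 1 → s j = t j then
      A (s ⟨k, by omega⟩, s ⟨k + 1, h⟩) (t ⟨k, by omega⟩, t ⟨k + 1, h⟩) else 0)
    else (if s = t then 1 else 0)

/-- The operator of a braid word on `n` strands: the letter `(k, true)` is the generator at the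
places `k`, `k + 1`, the letter `(k, false)` is its inverse; `P` and `Q` are the matrices of the two
crossings. -/
def rep {ι : Type} [Fintype ι] [DecidableEq ι] (P Q : Matrix (ι × ι) (ι × ι) ℂ) (n : ℕ)
    (w : List (ℕ × Bool)) : Matrix (Fin n → ι) (Fin n → ι) ℂ :=
  (w.map fun g => gen (if g.2 then P else Q) n g.1).prod

/-- The partial trace over all strands but the first one, with weights `k`; `n + 1` strands. -/
def tail {ι : Type} [Fintype ι] (k : ι → ℂ) (n : ℕ)
    (A : Matrix (Fin (n + 1) → ι) (Fin (n + 1) → ι) ℂ) : Matrix ι ι ℂ :=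
  fun i j => ∑ s : Fin n → ι, (∏ x, k (s x)) * A (Fin.cons i s) (Fin.cons j s)

/-- `m` full twists `(s_1 s_2 s_1)^{2 m}`, `m` an integer; the strands are numbered `0`, `1`, `2`,
and `s_1`, `s_2` are the generators number `0` and `1` (the full twist is central, so that
`(s_1^{-1} s_2^{-1} s_1^{-1})^2` is its inverse). -/
def fullTwists (m : ℤ) : List (ℕ × Bool) :=
  (List.replicate m.natAbs [(0, decide (0 ≤ m)), (1, decide (0 ≤ m)), (0, decide (0 ≤ m)),
    (0, decide (0 ≤ m)), (1, decide (0 ≤ m)), (0, decide (0 ≤ m))]).flatten

/-- The `N`-coloured Jones polynomial of the closure of `(s_1 s_2 s_1)^{2 m} T_1 U_1 ⋯ T_k U_k`, `ts`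
being the list `[(t_1, u_1), …, (t_k, u_k)]` (all components coloured by `V_N`, the crossing circles
included; unknot `= 1`), at `q = v^2`, up to a sign and a power of `v` (which depend on the framing
and the orientation and have modulus one at `v_N`): the partial quantum trace over the second and the
third strand, with the weights `v^{N-1-2x}` of `K`, is a scalar operator of `V_N`, which is read off
at the highest weight vector `e_0`. -/
noncomputable def jones (m : ℤ) (ts : List (Tree × Tree)) (N : ℕ) (v : ℂ) : ℂ :=
  if h : 0 < N then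
    tail (fun x : Fin N => v ^ ((N : ℤ) - 1 - 2 * (x : ℕ))) 2
      (rep (crossP N v) (crossN N v) 3 (fullTwists m) *
        (ts.map fun p => gen (tangle N v p.1) 3 0 * gen (tangle N v p.2) 3 1).prod)
      ⟨0, h⟩ ⟨0, h⟩ else 0

/-- `v_N = exp (π i / N)`, so that `q = v_N^2 = exp (2 π i / N)`. -/
noncomputable def root (N : ℕ) : ℂ := Complex.exp (Real.pi * Complex.I / N)

/-- The Kashaev invariant of the link, with a framing factor and a sign.  For the integers `e`, `f`
given by a diagram and an orientation (`e` corrects the framing, the sign comes from the unoriented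
calculus with `cup`, where a circle has the value `(-1)^(N-1) [N]`) this is `J_N(L) = ⟨L⟩_N`
exactly. -/
noncomputable def kashaev (e f m : ℤ) (ts : List (Tree × Tree)) (N : ℕ) : ℂ :=
  (-1) ^ (f * ((N : ℤ) - 1)) * root N ^ (e * ((N : ℤ) ^ 2 - 1)) * jones m ts N (root N)

/-- The mirror image: all weights are negated; the mirror image of the closure of
`(s_1 s_2 s_1)^{2 m} T_1 U_1 ⋯ T_k U_k` is that of the negated trees with `-m` full twists. -/
def mirror (ts : List (Tree × Tree)) : List (Tree × Tree) :=
  ts.map fun p => (p.1.mirror, p.2.mirror)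

/-! ### The hyperbolic volume

Let `n = 2 k`.  The ring is drawn from top to bottom (the first factor of
`T_1 U_1 ⋯ T_k U_k` is on top), and its trees are numbered upwards: the number `0` is `t_1`, the
number `1` is `u_k`, the number `2` is `t_k`, …, the number `n - 1` is `u_1` (in the cyclic order).
Every vertex of a tree has a crossing circle, around the two strands of its twist region; let
`C_j` be that of the root of the tree number `j`.  Let `A` be the axis of the ring (the braid axis).
The link complement is the Dehn filling, along one slope for `A` and one for every vertex without a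
crossing circle which is a component of the link, of the complement of the link with `A` and all
crossing circles added; the latter depends on the weights only up to half twists along
thrice-punctured spheres.  It is the union of ideal octahedra: two for any two neighbours `j`, `j + 1`
in the ring, and two for every edge of a tree.

*The octahedra of the ring.*  Between `C_j` and `C_{j+1}` there are two octahedra, one in front of the
projection plane and one behind it.  Let `C_j` enclose the strands `p, q` and `C_{j+1}` the strands
`q, r`.  The ideal vertices of both octahedra are `C_j`, `C_{j+1}` (opposite), `p`, `r` (opposite) and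
`q`, `A` (opposite).  Let the first octahedron be the one in front if `j` is even, and the one behind
if `j` is odd, and let the second octahedron be the other one.  The first octahedron is divided by the
diagonal `p r`, the second one by the diagonal `q A`, into four ideal tetrahedra, two of them with the
vertex `C_j`, two with the vertex `C_{j+1}`.  The dihedral angles (the angles of the triangles in the
links of `C_j` and `C_{j+1}`) are
* `f j` (first octahedron, vertex `C_j`): triangle `p, q, r` with the angles `a, b, c`, triangle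
  `p, r, A` with the angles `a', b', c'`;
* `g j` (first octahedron, vertex `C_{j+1}`): triangle `r, q, p` with the angles `a, b, c`, triangle
  `r, p, A` with the angles `a', b', c'`;
* `F j` (second octahedron, vertex `C_j`): triangle `q, p, A` with the angles `a, b, c`, triangle
  `q, A, r` with the angles `a', b', c'`;
* `G j` (second octahedron, vertex `C_{j+1}`): triangle `q, r, A` with the angles `a, b, c`, triangle
  `q, A, p` with the angles `a', b', c'`.

*The octahedra of the trees.*  For every edge `{x, y}` of a tree there are two octahedra, one before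
and one behind the projection plane.  Each has an ideal vertex `p` on the circle of `x`, the opposite
one `p'` on the circle of `y`, and four ideal vertices `k_1, …, k_4` on the link, in this cyclic order;
the disks bounded by the circles contain the faces `p k_1 k_2`, `p k_3 k_4`, `p' k_2 k_3`,
`p' k_4 k_1`.  Each octahedron is divided into four ideal tetrahedra by the diagonal `k_1 k_3`
(`k_2 k_4` for the one behind): two of them have the vertex `p`, two the vertex `p'`.  In the link of
`p` one sees a quadrilateral `k_1 k_2 k_3 k_4`, divided into the triangle `k_1 k_2 k_3` with the angles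
`a, b, c` and the triangle `k_1 k_3 k_4` with the angles `a', b', c'`; the same holds at `p'`, from
where the quadrilateral is seen as `k_3 k_2 k_1 k_4`.  (For a child `y` of `x`, in the position of
the tangle of `x`, the disks of the circle of `x` lie above and below the tangle of `y`, with the
vertices `k_4, k_3` above and `k_1, k_2` below, from left to right, and those of the circle of `y` lie on
the right, with `k_2`, `k_3`, and on the left, with `k_1`, `k_4`.  The tangle of `y` is rotated
clockwise, its upper end is on the right.)  The two octahedra of an edge are exchanged by a symmetry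
(a half twist along the two circles); the angle structures considered here are invariant under it.
A crossing circle which is a component of the link gives no condition besides those of the
edges of the decomposition (Casson and Rivin: the maximum of the volume is then the complete
structure at this cusp). -/

/-- Lobachevsky's function `Λ(x) = -∫_0^x log |2 sin t| dt`. -/
noncomputable def Lob (x : ℝ) : ℝ := -∫ t in (0 : ℝ)..x, Real.log |2 * Real.sin t|

/-- The dihedral angles of two tetrahedra with a common ideal vertex. -/
structure Angles where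
  a : ℝ
  b : ℝ
  c : ℝ
  a' : ℝ
  b' : ℝ
  c' : ℝ

namespace Angles

/-- The angles are positive, and those of a tetrahedron at one ideal vertex have the sum `π`. -/
def Positive (f : Angles) : Prop :=
  0 < f.a ∧ 0 < f.b ∧ 0 < f.c ∧ f.a + f.b + f.c = Real.pi ∧
    0 < f.a' ∧ 0 < f.b' ∧ 0 < f.c' ∧ f.a' + f.b' + f.c' = Real.pi

/-- The volume of the two tetrahedra. -/
noncomputable def vol (f : Angles) : ℝ :=
  Lob f.a + Lob f.b + Lob f.c + (Lob f.a' + Lob f.b' + Lob f.c')

/-- The rotation angle (holonomy of the circle) of a half twist: a path along the edge of an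
octahedron from one enclosed strand to the other one. -/
noncomputable def halfTwist (f : Angles) : ℝ := f.a + f.a' + f.b - Real.pi

/-- The rotation angle of a path through the octahedron, around the circle, from one disk bounded by
the circle to the next one. -/
noncomputable def across (f : Angles) : ℝ := f.a + f.a' + f.c' - Real.pi

end Angles

/-- Trees with dihedral angles: every edge, `join t c f g`, carries the angles `f` at the root of
`t` and the angles `g` at the root of `c`. -/
inductive AngleTree
  | single (b : Bool) (a : ℤ)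
  | join (t c : AngleTree) (f g : Angles)

namespace AngleTree

/-- The underlying weighted tree. -/
def tree : AngleTree → Tree
  | single b a => .single b a
  | join t c _ _ => .join t.tree c.tree

/-- The weight of the root. -/
def weight : AngleTree → ℤ
  | single _ a => a
  | join t _ _ _ => t.weight

/-- Is there a crossing circle at the root? -/
def circle : AngleTree → Bool
  | single b _ => b
  | join t _ _ _ => t.circle

/-- The edges from the root to its children, each with the angles at the root and those at the
other end; the first child is on top. -/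
def edges : AngleTree → List (Angles × Angles)
  | single _ _ => []
  | join t _ f g => t.edges ++ [(f, g)]

end AngleTree

/-- The sum of the dihedral angles around the arc (between the two strands of the band) which
separates two neighbouring edges `x`, `y` of a vertex is `2 π`. -/
def Gap (x y : Angles × Angles) : Prop :=
  2 * x.1.c + (x.2.a + x.2.b') + (2 * y.1.a' + (y.2.a + y.2.b')) = 2 * Real.pi

/-- The conditions at a vertex, not a root, of weight `w` with the edges `l` in cyclic order: the
angles around the arcs between neighbouring edges have the sum `2 π`; so have those around the edges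
from the ideal vertices on the circle to the link (the half twist has the same rotation angle at all
edges); and, if there is no crossing circle (`b = false`), the curve along which the circle is
filled has the rotation angle `2 π`. -/
def VertexCondition (b : Bool) (w : ℤ) (l : List (Angles × Angles)) : Prop :=
  (l ++ l.take 1).IsChain Gap ∧ (∀ x ∈ l, ∀ y ∈ l, x.1.halfTwist = y.1.halfTwist) ∧
    (b = false → ∀ x ∈ l, (l.map fun y => y.1.across).sum = 2 * Real.pi + w * x.1.halfTwist)

/-- Positivity, the sum of the angles around the diagonals of the octahedra, and the conditions at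
all vertices of a tree other than the root. -/
def Below : AngleTree → Prop
  | .single _ _ => True
  | .join t c f g => Below t ∧ Below c ∧ f.Positive ∧ g.Positive ∧
      f.b + f.c' + (g.b + g.c') = 2 * Real.pi ∧
      VertexCondition c.circle c.weight ((g, f) :: c.edges)

/-- The volume of an angle structure on a tree: two octahedra for every edge, eight tetrahedra. -/
noncomputable def treeVol : AngleTree → ℝ
  | .single _ _ => 0
  | .join t c f g => treeVol t + treeVol c + 2 * (f.vol + g.vol)

/-- The conditions at the circle `C = C_{j+1}` of a root of weight `w` with the edges `l` to its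
children (the first one on top): `f g F G` are the angles between `C_j` and `C_{j+1}` (below), and
`f' g' F' G'` those between `C_{j+1}` and `C_{j+2}` (above).  The sums of the dihedral angles around the
edges are `2 π`, and the circle is filled. -/
structure RingCondition (w : ℤ) (l : List (Angles × Angles)) (f g F G f' g' F' G' : Angles) :
    Prop where
  /-- the edge between the third strand and the axis -/
  axis : f.b' + g.a' + F.a + G.a' + (f'.a' + g'.b' + F'.a' + G'.a) = 2 * Real.pi
  /-- the edge from `C` to the axis -/
  toAxis : g.c' + G.c + G.b' + (f'.c' + F'.c + F'.b') = 2 * Real.pi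
  /-- the edge from `C` to the third strand -/
  toThird : g.c + g.b' + G.c' + (f'.c + f'.b' + F'.c') = 2 * Real.pi
  /-- no children: the edge between the two strands enclosed by `C` -/
  arc : l = [] → f.a + g.c + F.b' + G.c + (f'.c + g'.a + F'.c + G'.b') = 2 * Real.pi
  /-- no children: the edges from `C` to the two strands enclosed by `C`, `w` even -/
  even : l = [] → Even w → g.a + g.a' + G.b + (f'.a + f'.a' + F'.b) = 2 * Real.pi ∧
    g.b + G.a + G.a' + (f'.b + F'.a + F'.a') = 2 * Real.pi
  /-- no children: the edges from `C` to the two strands enclosed by `C`, `w` odd -/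
  odd : l = [] → Odd w → g.b + G.a + G.a' + (f'.a + f'.a' + F'.b) = 2 * Real.pi ∧
    g.a + g.a' + G.b + (f'.b + F'.a + F'.a') = 2 * Real.pi
  /-- the arc above the first child -/
  first : ∀ y ∈ l.head?, f'.c + g'.a + F'.c + G'.b' + (2 * y.1.a' + (y.2.a + y.2.b')) =
    2 * Real.pi
  /-- the arcs between the children -/
  between : l.IsChain Gap
  /-- the arc below the last child -/
  last : ∀ x ∈ l.getLast?, 2 * x.1.c + (x.2.a + x.2.b') + (f.a + g.c + F.b' + G.c) =
    2 * Real.pi
  /-- the edges from `C` to the enclosed strands: above the first child, and below the last one (the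
  two octahedra of a child contribute `π - halfTwist` above and `π + halfTwist` below it) -/
  strands : ∀ x ∈ l,
    f'.a + f'.a' + F'.b + (Real.pi - x.1.halfTwist) = 2 * Real.pi ∧
    f'.b + F'.a + F'.a' + (Real.pi - x.1.halfTwist) = 2 * Real.pi ∧
    g.a + g.a' + G.b + (Real.pi + x.1.halfTwist) = 2 * Real.pi ∧
    g.b + G.a + G.a' + (Real.pi + x.1.halfTwist) = 2 * Real.pi
  /-- the rotation angle of two parallel copies of the filling slope of `C` (once around `C`, with
  `w` half twists) is `4 π` -/
  fill : f'.across + F'.across - (g.across + G.across) + 2 * (l.map fun y => y.1.across).sum =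
    4 * Real.pi + w * (f'.halfTwist + F'.halfTwist)

/-- Rotation angle of the part between `C_j` and `C_{j+1}` of two parallel copies of the meridian of
the ring, `m = 0`, on the boundary torus of the axis. -/
noncomputable def meridianPart (f g F G : Angles) : ℝ :=
  f.c' + f.b' + g.a' - Real.pi + (F.a' + G.a + G.c + G.b' - Real.pi)

/-- Rotation angle of the longitude of the axis (the boundary of a disk which meets the three
strands). -/
noncomputable def longitude (f g F G : Angles) : ℝ :=
  f.b' + g.a' + g.c' + G.c + G.b' + F.a + G.a' - 2 * Real.pi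

/-- The trees of the ring, numbered upwards: `t_1, u_k, t_k, …, u_2, t_2, u_1` (the factors
`t_1, u_1, …, t_k, u_k` in the opposite cyclic order). -/
def ringTree (ts : List (Tree × Tree)) (j : ℕ) : Tree :=
  ((ts.map fun p => [p.1, p.2]).flatten).getD ((2 * ts.length - j) % (2 * ts.length))
    (.single false 0)

/-- Angle structures of the complement of the closure of `(s_1 s_2 s_1)^{2 m} T_1 U_1 ⋯ T_k U_k` (the
indices are taken modulo `2 k`): `y j` are angles on the tree number `j`, and `f j`, `g j`, `F j`, `G j`
those between `C_j` and `C_{j+1}`.  The angles are positive, the sums around the diagonals of the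
octahedra are `2 π`, the conditions at the vertices hold, and the axis is filled (two parallel copies
of the filling slope: meridian plus `m` times longitude). -/
structure IsAngle (m : ℤ) (ts : List (Tree × Tree)) (y : ℕ → AngleTree) (f g F G : ℕ → Angles) :
    Prop where
  trees : ∀ j < 2 * ts.length, (y j).tree = ringTree ts j ∧ Below (y j)
  positive : ∀ j < 2 * ts.length,
    (f j).Positive ∧ (g j).Positive ∧ (F j).Positive ∧ (G j).Positive
  diagonals : ∀ j < 2 * ts.length, (f j).b + (f j).c' + ((g j).b + (g j).c') = 2 * Real.pi ∧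
    (F j).b + (F j).c' + ((G j).b + (G j).c') = 2 * Real.pi
  roots : ∀ j < 2 * ts.length, RingCondition (y ((j + 1) % (2 * ts.length))).weight
    (y ((j + 1) % (2 * ts.length))).edges
    (f j) (g j) (F j) (G j) (f ((j + 1) % (2 * ts.length))) (g ((j + 1) % (2 * ts.length)))
    (F ((j + 1) % (2 * ts.length))) (G ((j + 1) % (2 * ts.length)))
  axis : ∑ j ∈ range (2 * ts.length), meridianPart (f j) (g j) (F j) (G j) =
    -(4 * Real.pi + 2 * m * longitude (f 0) (g 0) (F 0) (G 0))

/-- The volume of an angle structure: those of the trees, and two octahedra, eight tetrahedra, for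
every `j`. -/
noncomputable def vol (ts : List (Tree × Tree)) (y : ℕ → AngleTree) (f g F G : ℕ → Angles) : ℝ :=
  ∑ j ∈ range (2 * ts.length), (treeVol (y j) + ((f j).vol + (g j).vol + (F j).vol + (G j).vol))

/-! ### The Chern-Simons invariant

*Shapes.*  The complete structure is the angle structure of maximal volume; a tetrahedron with the
dihedral angles `a, b, c` has the shape parameters `shape a b c`, `shape b c a`, `shape c a b` at
the edges with these angles.

*Labels.*  A flattening assigns to the edges of each tetrahedron the logarithmic parameters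
`log z - π i A`, where `z` is the shape parameter and `A` an integer, the label (opposite edges
have the same label); the sum of the three logarithmic parameters has to be `0`, that is the sum of
the three labels is `1`.  The sum of the logarithmic parameters around every edge of the
decomposition has to be `0`, that is the sum of the labels is `2` (that of the angles is `2 π`).
The logarithmic parameter of a curve along which a cusp is filled, and of the curves on a cusp which
is not filled, has to be `0`.  `IsFlat` contains these conditions for the cusps of the circles and of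
the axis.  At the cusps of the strands they need not be imposed: the label of the meridian of a
strand is the sum of the labels at an edge from a circle to the strand and at an edge in a disk
bounded by the circle, minus `2`, that is `0`; the label of a longitude is even (the labels of all
closed curves on the cusps of the circles and the axis are even), and a flattening in the strict
sense is obtained by adding multiples of the vectors which Neumann and Zagier associate with the
meridians, which changes the sum of the dilogarithms by multiples of `π²` only.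

*Order.*  In every tetrahedron the ideal vertex on a circle (every tetrahedron has exactly one) comes
first, followed by the others (`p, q, r, A`, or `k_1, …, k_4`) in the order of four numbers
`n_1, …, n_4`.

*Orientation.*  The tetrahedra are positively oriented (the triangles above are seen
counterclockwise from the circles); this is the standard orientation of `S³` if `crossP` is a
left-handed crossing of parallel strands (then `jones` is the coloured Jones polynomial in the usual
convention, with `q⁻¹ V(L₊) - q V(L₋) = (q^{1/2} - q^{-1/2}) V(L₀)` up to the sign of `q^{1/2}`).  If,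
with the opposite convention `q V(L₊) - q⁻¹ V(L₋)` of Murakami and Murakami, `crossP` is a
right-handed crossing, it is the opposite orientation: then `C` is minus the Chern-Simons invariant
of the complement, and `(V + i C) / (2 π)` is `Φ / (2 π i)` with `Φ = CS + i vol`. -/

/-- Euler's dilogarithm `Li₂(z) = -∫_0^1 log (1 - t z) dt / t`, principal branch. -/
noncomputable def dilog (z : ℂ) : ℂ := -∫ t in (0 : ℝ)..1, Complex.log (1 - t * z) / t

/-- The extended Rogers dilogarithm of Neumann:
`L(z; p, q) = Li₂(z) + log z log(1 - z) / 2 - π² / 6 + (π i / 2) (q log z + p log(1 - z))`,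
principal branches. -/
noncomputable def extRogers (z : ℂ) (p q : ℤ) : ℂ :=
  dilog z + Complex.log z * Complex.log (1 - z) / 2 - (Real.pi : ℂ) ^ 2 / 6 +
    Real.pi * Complex.I / 2 * (q * Complex.log z + p * Complex.log (1 - z))

/-- The shape parameter of an ideal tetrahedron with the dihedral angles `a, b, c`, at the edge with
the angle `a` (`|z| = sin b / sin c`, `arg z = a`; then `1 / (1 - z)` and `1 - 1 / z` are the
parameters at the edges with the angles `b` and `c`). -/
noncomputable def shape (a b c : ℝ) : ℂ :=
  ((Real.sin b / Real.sin c : ℝ) : ℂ) * Complex.exp (Complex.I * a)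

/-- The term of a tetrahedron with the vertices `v_0 < v_1 < v_2 < v_3`, if this order is that of
its orientation: `z` is the shape parameter at the edge `v_0 v_1`, and `A`, `B` are the labels at
the edges `v_0 v_1`, `v_1 v_2` (logarithmic parameters `log z - π i A`, `- log (1 - z) - π i B`). -/
noncomputable def posTerm (z : ℂ) (A B : ℤ) : ℂ := extRogers z (-A) (-B)

/-- The term of a tetrahedron with the vertices `v_0 < v_1 < v_2 < v_3`, if this order is opposite
to its orientation: `z` is the shape parameter at the edge `v_0 v_1` (so that the cross ratio of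
`v_0, v_1, v_2, v_3` is `1 / z`), and `A`, `C` are the labels at `v_0 v_1`, `v_1 v_2` (logarithmic
parameters of the ordered tetrahedron: `log (1 / z) + π i A`, `- log (1 - 1 / z) + π i C`). -/
noncomputable def negTerm (z : ℂ) (A C : ℤ) : ℂ := -extRogers (1 / z) A C

/-- The term of a tetrahedron with the vertices `v, x, y, w` (in this orientation), of which `v` is
the first one; `a, b, c` are the angles and `A, B, C` the labels at the edges `v x`, `v y`, `v w`
(and at the opposite edges `y w`, `w x`, `x y`), and `x, y, w` are numbers which give the order of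
the vertices. -/
noncomputable def tetTerm (a b c : ℝ) (A B C : ℤ) (x y w : ℤ) : ℂ :=
  if x < y ∧ y < w then negTerm (shape a b c) A C
  else if x < w ∧ w < y then posTerm (shape a b c) A B
  else if y < w ∧ w < x then negTerm (shape b c a) B A
  else if y < x ∧ x < w then posTerm (shape b c a) B C
  else if w < x ∧ x < y then negTerm (shape c a b) C B
  else posTerm (shape c a b) C A

/-- The labels of two tetrahedra, at the same edges as the angles `Angles`. -/
structure Labels where
  a : ℤ
  b : ℤ
  c : ℤ
  a' : ℤ
  b' : ℤ
  c' : ℤ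

/-- The two tetrahedra `v k_1 k_2 k_3`, `v k_1 k_3 k_4` of a quadrilateral `k_1 k_2 k_3 k_4` seen
from `v`, with the angles `f` and the labels `F`; the numbers `n_i` give the order of the `k_i`. -/
noncomputable def twoTerms (f : Angles) (F : Labels) (n1 n2 n3 n4 : ℤ) : ℂ :=
  tetTerm f.a f.b f.c F.a F.b F.c n1 n2 n3 + tetTerm f.a' f.b' f.c' F.a' F.b' F.c' n1 n3 n4

/-- The data of an edge `{x, y}` of a tree, `y` a child of `x`: the angles (`f` at `p`, `g` at `p'`),
the labels (`F` at `p` and `G` at `p'` of the octahedron in front, `B` at `p` and `H` at `p'` of the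
one behind), and the order of the vertices `k_1, …, k_4`.  From `p` the octahedron in front is seen
as `k_1 k_2 k_3 k_4`, the one behind as `k_2 k_1 k_4 k_3`; from `p'` they are seen as
`k_3 k_2 k_1 k_4` and `k_2 k_3 k_4 k_1`. -/
structure TreePiece where
  f : Angles
  g : Angles
  F : Labels
  G : Labels
  B : Labels
  H : Labels
  n1 : ℤ
  n2 : ℤ
  n3 : ℤ
  n4 : ℤ

namespace TreePiece

/-- The same data, seen from the other end of the edge (`p` and `p'` are exchanged, and `k_1`,
`k_3`). -/
def swap (x : TreePiece) : TreePiece := ⟨x.g, x.f, x.G, x.F, x.H, x.B, x.n3, x.n2, x.n1, x.n4⟩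

/-- The contribution of the eight tetrahedra of an edge. -/
noncomputable def term (x : TreePiece) : ℂ :=
  twoTerms x.f x.F x.n1 x.n2 x.n3 x.n4 + twoTerms x.g x.G x.n3 x.n2 x.n1 x.n4 +
    (twoTerms x.f x.B x.n2 x.n1 x.n4 x.n3 + twoTerms x.g x.H x.n2 x.n3 x.n4 x.n1)

/-- The labels of each tetrahedron have the sum `1`, those around the diagonals `k_1 k_3` (in front)
and `k_2 k_4` (behind) have the sum `2`, and the vertices `k_1, …, k_4` are ordered. -/
def Inner (x : TreePiece) : Prop :=
  (x.F.a + x.F.b + x.F.c = 1 ∧ x.F.a' + x.F.b' + x.F.c' = 1) ∧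
  (x.G.a + x.G.b + x.G.c = 1 ∧ x.G.a' + x.G.b' + x.G.c' = 1) ∧
  (x.B.a + x.B.b + x.B.c = 1 ∧ x.B.a' + x.B.b' + x.B.c' = 1) ∧
  (x.H.a + x.H.b + x.H.c = 1 ∧ x.H.a' + x.H.b' + x.H.c' = 1) ∧
  x.F.b + x.F.c' + (x.G.b + x.G.c') = 2 ∧ x.B.b + x.B.c' + (x.H.b + x.H.c') = 2 ∧
  x.n1 ≠ x.n2 ∧ x.n1 ≠ x.n3 ∧ x.n1 ≠ x.n4 ∧ x.n2 ≠ x.n3 ∧ x.n2 ≠ x.n4 ∧ x.n3 ≠ x.n4

/-- The conditions at the end `p`.  The sum of the labels (in front and behind) is `1` at each of the
edges `p k_1, …, p k_4`, and at each of the edges `k_1 k_2`, `k_3 k_4` in the disks of the circle;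
every such edge belongs to two neighbouring pieces, so that the sum around it is `2`.  And the label
of a half twist around the circle is `0` (in front and behind). -/
def End (x : TreePiece) : Prop :=
  x.F.a + x.F.a' + x.B.b = 1 ∧ x.F.b + (x.B.a + x.B.a') = 1 ∧
  x.F.c + x.F.b' + x.B.c' = 1 ∧ x.F.c' + (x.B.c + x.B.b') = 1 ∧
  x.F.c + x.G.a + (x.B.c + x.H.b') = 1 ∧ x.F.a' + x.G.b' + (x.B.a' + x.H.a) = 1 ∧
  x.F.a + x.F.a' + x.F.b - 1 = 0 ∧ x.B.a + x.B.a' + x.B.b - 1 = 0

/-- The label of the path `across` at `p`, through the octahedron in front. -/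
def across (x : TreePiece) : ℤ := x.F.a + x.F.a' + x.F.c' - 1

end TreePiece

/-- The labels in the two octahedra between `C_j` and `C_{j+1}` (at the same edges as the angles
`f j`, `g j`, `F j`, `G j`), and the order of the vertices `p`, `q`, `r`, `A`. -/
structure RingPiece where
  f : Labels
  g : Labels
  F : Labels
  G : Labels
  n1 : ℤ
  n2 : ℤ
  n3 : ℤ
  n4 : ℤ

namespace RingPiece

/-- The contribution of the eight tetrahedra between `C_j` and `C_{j+1}`. -/
noncomputable def term (f g F G : Angles) (x : RingPiece) : ℂ :=
  twoTerms f x.f x.n1 x.n2 x.n3 x.n4 + twoTerms g x.g x.n3 x.n2 x.n1 x.n4 +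
    (twoTerms F x.F x.n2 x.n1 x.n4 x.n3 + twoTerms G x.G x.n2 x.n3 x.n4 x.n1)

/-- The labels of each tetrahedron have the sum `1`, those around the diagonals have the sum `2`,
and the vertices `p, q, r, A` are ordered. -/
def Inner (x : RingPiece) : Prop :=
  (x.f.a + x.f.b + x.f.c = 1 ∧ x.f.a' + x.f.b' + x.f.c' = 1) ∧
  (x.g.a + x.g.b + x.g.c = 1 ∧ x.g.a' + x.g.b' + x.g.c' = 1) ∧
  (x.F.a + x.F.b + x.F.c = 1 ∧ x.F.a' + x.F.b' + x.F.c' = 1) ∧
  (x.G.a + x.G.b + x.G.c = 1 ∧ x.G.a' + x.G.b' + x.G.c' = 1) ∧
  x.f.b + x.f.c' + (x.g.b + x.g.c') = 2 ∧ x.F.b + x.F.c' + (x.G.b + x.G.c') = 2 ∧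
  x.n1 ≠ x.n2 ∧ x.n1 ≠ x.n3 ∧ x.n1 ≠ x.n4 ∧ x.n2 ≠ x.n3 ∧ x.n2 ≠ x.n4 ∧ x.n3 ≠ x.n4

/-- The conditions at `C_j`.  The sum of the labels is `1` at each of the edges from `C_j` to `p`,
`q`, `r`, `A`, and at each of the edges `p q`, `r A`; every such edge also belongs to one
neighbouring piece, so that the sum around it is `2`.  And the label of a half twist around `C_j` is
`0`, in both octahedra. -/
def Bottom (x : RingPiece) : Prop :=
  x.f.a + x.f.a' + x.F.b = 1 ∧ x.f.b + (x.F.a + x.F.a') = 1 ∧
  x.f.c + x.f.b' + x.F.c' = 1 ∧ x.f.c' + (x.F.c + x.F.b') = 1 ∧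
  x.f.c + x.g.a + (x.F.c + x.G.b') = 1 ∧ x.f.a' + x.g.b' + (x.F.a' + x.G.a) = 1 ∧
  x.f.a + x.f.a' + x.f.b - 1 = 0 ∧ x.F.a + x.F.a' + x.F.b - 1 = 0

/-- The conditions at `C_{j+1}`, as in `Bottom`: the edges from `C_{j+1}` to `r`, `q`, `p`, `A`, the
edges `q r`, `p A`, and the half twists around `C_{j+1}`. -/
def Top (x : RingPiece) : Prop :=
  x.g.a + x.g.a' + x.G.b = 1 ∧ x.g.b + (x.G.a + x.G.a') = 1 ∧
  x.g.c + x.g.b' + x.G.c' = 1 ∧ x.g.c' + (x.G.c + x.G.b') = 1 ∧
  x.g.c + x.f.a + (x.G.c + x.F.b') = 1 ∧ x.g.a' + x.f.b' + (x.G.a' + x.F.a) = 1 ∧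
  x.g.a + x.g.a' + x.g.b - 1 = 0 ∧ x.G.a + x.G.a' + x.G.b - 1 = 0

/-- The label of the path `across` at `C_j`, through the first octahedron. -/
def low (x : RingPiece) : ℤ := x.f.a + x.f.a' + x.f.c' - 1

/-- The label of the path `across` at `C_{j+1}`, through the first octahedron. -/
def high (x : RingPiece) : ℤ := x.g.a + x.g.a' + x.g.c' - 1

/-- The label of the part of the meridian of the axis in the first octahedron. -/
def along (x : RingPiece) : ℤ := x.f.c' + x.f.b' + x.g.a' - 1

end RingPiece

/-- The conditions at a vertex, not a root, of weight `w`: `s` is the piece of the edge to the parent,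
seen from the vertex, and `l` are the pieces of the edges to the children.  The label of the path
across all edges is `2` if the circle is filled (like the rotation angle `2 π + w · (half twist)` in
`VertexCondition`), and `0` if the circle belongs to the link (`b = true`).  The orders of the
vertices agree on the edges of the decomposition in the disks: in the position of the tangle of the
vertex, with the half twists and below them the tangles of the children, these are from left to
right `k_3, k_2` above the half twists and `k_4, k_1` at the bottom for the edge to the parent (that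
is `k_1, k_2` and `k_4, k_3` of `s`), and `k_4, k_3` above and `k_1, k_2` below the tangle of a
child. -/
structure VertexFlat (b : Bool) (w : ℤ) (s : TreePiece) (l : List TreePiece) : Prop where
  ends : s.End ∧ ∀ x ∈ l, x.End
  fill : s.across + (l.map TreePiece.across).sum = if b then 0 else 2
  /-- no children -/
  leaf : l = [] → ((s.n1 < s.n2 ↔ s.n4 < s.n3) ↔ Even w)
  /-- the `w` half twists are above the first child -/
  first : ∀ y ∈ l.head?, ((s.n1 < s.n2 ↔ y.n4 < y.n3) ↔ Even w)
  between : l.IsChain fun x y => x.n1 < x.n2 ↔ y.n4 < y.n3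
  last : ∀ x ∈ l.getLast?, (x.n1 < x.n2 ↔ s.n4 < s.n3)

/-- Trees with the data of a flattening at every edge. -/
inductive FlatTree
  | single (b : Bool) (a : ℤ)
  | join (t c : FlatTree) (x : TreePiece)

namespace FlatTree

/-- The underlying tree with angles. -/
def angles : FlatTree → AngleTree
  | single b a => .single b a
  | join t c x => .join t.angles c.angles x.f x.g

/-- The edges from the root to its children, the first one on top. -/
def edges : FlatTree → List TreePiece
  | single _ _ => []
  | join t _ x => t.edges ++ [x]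

/-- The conditions inside the octahedra, and at the vertices other than the root. -/
def Below : FlatTree → Prop
  | single _ _ => True
  | join t c x => t.Below ∧ c.Below ∧ x.Inner ∧
      VertexFlat c.angles.circle c.angles.weight x.swap c.edges

/-- The sum of the extended Rogers dilogarithms over the eight tetrahedra of every edge. -/
noncomputable def sum : FlatTree → ℂ
  | single _ _ => 0
  | join t c x => t.sum + c.sum + x.term

end FlatTree

/-- The conditions at the circle `C = C_j` of the root, of weight `w`, of the tree number `j`, with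
the pieces `l` of the edges to the children (the first one on top), the piece `x` of the ring below
and the piece `y` above it.  The label of the closed curve around `C` is `2`, like the rotation angle
in `RingCondition` (half twists have the label `0`), and the orders of the vertices agree on the edges
of the decomposition in the disks bounded by `C` and outside of `C`.  The two strands enclosed by `C`
are, from left to right, `p, q` in the piece `y` and `r, q` in the piece `x` if `j` is even, and `q, p`
in `y`, `q, r` in `x` if `j` is odd (the tree is then on the strands 2, 3); they are `k_4, k_3` above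
and `k_1, k_2` below the tangle of a child, and the `w` half twists are above the first child.
Outside of `C` one has the edge `p A` of `x`, which is the edge `r A` of `y`. -/
structure RootFlat (j : ℕ) (w : ℤ) (l : List TreePiece) (x y : RingPiece) : Prop where
  ends : ∀ t ∈ l, t.End
  fill : y.low - x.high + (l.map TreePiece.across).sum = 2
  /-- no children -/
  leaf : l = [] → ((x.n3 < x.n2 ↔ y.n1 < y.n2) ↔ Even w)
  first : ∀ t ∈ l.head?, ((y.n1 < y.n2 ↔ t.n4 < t.n3) ↔ Even (w + j))
  between : l.IsChain fun s t => s.n1 < s.n2 ↔ t.n4 < t.n3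
  last : ∀ t ∈ l.getLast?, ((t.n1 < t.n2 ↔ x.n3 < x.n2) ↔ Even j)
  out : x.n1 < x.n4 ↔ y.n3 < y.n4

/-- The flattenings (with orders of the vertices), for a ring of `n` trees; the label of
the meridian of the axis is `-2` (like the rotation angle in `IsAngle`; the label of the longitude is
`0`). -/
structure IsFlat (n : ℕ) (t : ℕ → FlatTree) (x : ℕ → RingPiece) : Prop where
  inner : ∀ j < n, (x j).Inner ∧ (x j).Bottom ∧ (x j).Top
  trees : ∀ j < n, (t j).Below
  roots : ∀ j < n, RootFlat ((j + 1) % n) (t ((j + 1) % n)).angles.weight (t ((j + 1) % n)).edges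
    (x j) (x ((j + 1) % n))
  axis : ∑ j ∈ range n, (x j).along = -2

/-- The sum of the extended Rogers dilogarithms over all tetrahedra. -/
noncomputable def dilogSum (n : ℕ) (f g F G : ℕ → Angles) (t : ℕ → FlatTree)
    (x : ℕ → RingPiece) : ℂ :=
  ∑ j ∈ range n, (x j).term (f j) (g j) (F j) (G j) + ∑ j ∈ range n, (t j).sum

/-- `V + i C` is the complex volume `vol + i CS` modulo `i π²` of the complement of the closure of
`(s_1 s_2 s_1)^{2 m} T_1 U_1 ⋯ T_k U_k`, by Neumann's formula: `V` is the maximal volume of the angle
structures, there are an angle structure of volume `V` and a flattening, and for every angle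
structure of volume `V` and every flattening the sum of the extended Rogers dilogarithms is
`i (V + i C)` modulo `π²`. -/
structure ComplexVolume (m : ℤ) (ts : List (Tree × Tree)) (V C : ℝ) : Prop where
  volume : IsGreatest {W : ℝ | ∃ (y : ℕ → AngleTree) (f g F G : ℕ → Angles),
    IsAngle m ts y f g F G ∧ vol ts y f g F G = W} V
  flat : ∃ (f g F G : ℕ → Angles) (t : ℕ → FlatTree) (x : ℕ → RingPiece),
    IsAngle m ts (fun j => (t j).angles) f g F G ∧
    vol ts (fun j => (t j).angles) f g F G = V ∧ IsFlat (2 * ts.length) t x
  sum : ∀ (f g F G : ℕ → Angles) (t : ℕ → FlatTree) (x : ℕ → RingPiece),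
    IsAngle m ts (fun j => (t j).angles) f g F G →
    vol ts (fun j => (t j).angles) f g F G = V → IsFlat (2 * ts.length) t x →
    ∃ k : ℤ, dilogSum (2 * ts.length) f g F G t x =
      Complex.I * (V + Complex.I * C) + k * (Real.pi : ℂ) ^ 2

/-- The filter of the odd integers tending to infinity. -/
def oddTop : Filter ℕ := atTop ⊓ 𝓟 {n | Odd n}

/-- The conclusion of the complexified volume conjecture along the odd integers for the sequence
`a_n = J n`: nonvanishing, `2 π log |a_n| / n → V`, `a_{n+2} / a_n → exp ((V + i C) / π)` (that is,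
`π log (a_{n+2} / a_n) → V + i C` modulo `2 π² i`, for every branch of the logarithm), and moreover
`a_n ∼ κ n^{3/2} exp (n (V + i C) / 2 π)` with a constant `κ ≠ 0`. -/
def Asymptotics (J : ℕ → ℂ) (V C : ℝ) : Prop :=
  (∀ᶠ n : ℕ in oddTop, J n ≠ 0) ∧
  Tendsto (fun n : ℕ => 2 * Real.pi * (Real.log ‖J n‖ / n)) oddTop (𝓝 V) ∧
  Tendsto (fun n : ℕ => J (n + 2) / J n) oddTop
    (𝓝 (Complex.exp ((V + Complex.I * C) / Real.pi))) ∧
  ∃ κ : ℂ, κ ≠ 0 ∧ Tendsto (fun n : ℕ => J n / (((n : ℝ) ^ (3 / 2 : ℝ) : ℝ) *
    Complex.exp ((V + Complex.I * C) / (2 * Real.pi) * n))) oddTop (𝓝 κ)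

/-! ### Checks of the definitions (not part of the result) -/

/-- For `N = 2` the crossings satisfy the skein relation of the Jones polynomial. -/
theorem skein (v : ℂ) (hv : v ≠ 0) (h1 : br v 1 ≠ 0) :
    v ^ 2 • crossP 2 v - (v ^ 2)⁻¹ • crossN 2 v =
      (v - v⁻¹) • (1 : Matrix (Fin 2 × Fin 2) (Fin 2 × Fin 2) ℂ) :=
  Pool.Agent.H550R3.Jones.taskSanSkein v hv h1

/-- The two crossings are inverse to each other. -/
theorem cross_inverse (N : ℕ) (v : ℂ) (hv : v ≠ 0)
    (h : ∀ k : ℕ, 0 < k → k < N → br v k ≠ 0) :
    crossP N v * crossN N v = 1 ∧ crossN N v * crossP N v = 1 :=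
  Pool.Agent.H309R4.Jones.SanI.taskSanInv Pool.Agent.H345J.taskMod Pool.Agent.H345J.taskInv
    Pool.Agent.H559R3.J.taskCross N v ⟨hv, h⟩

/-- The Yang-Baxter equation, for every colour. -/
theorem yang_baxter (N : ℕ) (v : ℂ) (hv : v ≠ 0) (h : ∀ k : ℕ, 0 < k → k < N → br v k ≠ 0) :
    gen (crossP N v) 3 0 * gen (crossP N v) 3 1 * gen (crossP N v) 3 0 =
      gen (crossP N v) 3 1 * gen (crossP N v) 3 0 * gen (crossP N v) 3 1 :=
  Pool.Agent.H927R2.J.SanYB.taskSanYB Pool.Agent.H345J.taskMod Pool.Agent.H345J.taskInt
    Pool.Agent.H345J.taskInv Pool.Agent.H667J.taskHex1 Pool.Agent.H22R3.J.taskNat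
    Pool.Agent.H559R3.J.taskCross N v ⟨hv, h⟩

/-- Curls may be removed: the framing is normalised. -/
theorem curl (N : ℕ) (v : ℂ) (hv : v ≠ 0) (h : ∀ k : ℕ, 0 < k → k < N → br v k ≠ 0) :
    (fun i j => ∑ x : Fin N, v ^ ((N : ℤ) - 1 - 2 * (x : ℕ)) * crossP N v (i, x) (j, x)) =
      (1 : Matrix (Fin N) (Fin N) ℂ) ∧
    (fun i j => ∑ x : Fin N, v ^ ((N : ℤ) - 1 - 2 * (x : ℕ)) * crossN N v (i, x) (j, x)) =
      (1 : Matrix (Fin N) (Fin N) ℂ) :=
  Pool.Agent.H105R3.JSan.taskSanCurl N v ⟨hv, h⟩

/-! ### Bridges -/

open Pool.Agent.W719.AR (Fl)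
open Pool.Agent.TH563.UV (Tb AB VOK op opv)
open Pool.Agent.Y481.DR (JD DAng dVol VD tj NoC opD rv)
open Pool.Agent.W719.AX (EXY)

/-- conversion to the trees of the proof -/
def toTb : Tree → Tb
  | .single b a => .vx b a
  | .join t c => .br (toTb t) (toTb c)

/-- conversion of angles -/
def toFl (f : Angles) : Fl := ⟨f.a, f.b, f.c, f.a', f.b', f.c'⟩

/-- conversion of angles -/
def ofFl (f : Fl) : Angles := ⟨f.a, f.b, f.c, f.a', f.b', f.c'⟩

/-- conversion of trees with angles -/
def toAB : AngleTree → AB
  | .single b a => .vx b a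
  | .join t c f g => .br (toAB t) (toAB c) (toFl f) (toFl g)

/-- conversion of trees with angles -/
def ofAB : AB → AngleTree
  | .vx b a => .single b a
  | .br t c f g => .join (ofAB t) (ofAB c) (ofFl f) (ofFl g)

lemma toTb_inj : ∀ s t : Tree, toTb s = toTb t → s = t
  | .single b a, .single b' a', h => by
    simp only [toTb, Tb.vx.injEq] at h
    rw [h.1, h.2]
  | .single b a, .join t c, h => by simp [toTb] at h
  | .join t c, .single b a, h => by simp [toTb] at h
  | .join t c, .join t' c', h => by
    simp only [toTb, Tb.br.injEq] at h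
    rw [toTb_inj t t' h.1, toTb_inj c c' h.2]

lemma toAB_of (y : AB) : toAB (ofAB y) = y := by
  induction y with
  | vx b a => rfl
  | br t c f g ht hc =>
    simp only [ofAB, toAB, ht, hc]
    rfl

lemma shape_to (y : AngleTree) : (toAB y).shape = toTb y.tree := by
  induction y with
  | single b a => rfl
  | join t c f g ht hc => simp only [toAB, AB.shape, AngleTree.tree, toTb, ht, hc]

lemma weight_to (y : AngleTree) : (toAB y).wt = y.weight := by
  induction y with
  | single b a => rfl
  | join t c f g ht hc => simpa only [toAB, AB.wt, AngleTree.weight] using ht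

lemma circle_to (y : AngleTree) : (toAB y).bl = y.circle := by
  induction y with
  | single b a => rfl
  | join t c f g ht hc => simpa only [toAB, AB.bl, AngleTree.circle] using ht

/-- conversion of pairs -/
def toFl2 (x : Angles × Angles) : Fl × Fl := (toFl x.1, toFl x.2)

lemma edges_to (y : AngleTree) : (toAB y).fl = y.edges.map toFl2 := by
  induction y with
  | single b a => rfl
  | join t c f g ht hc =>
    simp only [toAB, AB.fl, AngleTree.edges, ht, List.map_append, List.map_cons, List.map_nil]
    rfl

lemma vertex_to (b : Bool) (w : ℤ) (l : List (Angles × Angles)) :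
    VOK b w (l.map toFl2) ↔ VertexCondition b w l := by
  unfold VOK VertexCondition
  have h1 : (l.map toFl2 ++ (l.map toFl2).take 1) = (l ++ l.take 1).map toFl2 := by
    rw [List.map_append, List.map_take]
  rw [h1, List.isChain_map]
  refine and_congr Iff.rfl (and_congr ?_ ?_)
  · simp only [List.mem_map, forall_exists_index, and_imp, forall_apply_eq_imp_iff₂]
    exact Iff.rfl
  · simp only [List.mem_map, forall_exists_index, and_imp, forall_apply_eq_imp_iff₂, List.map_map]
    exact Iff.rfl

lemma below_to (y : AngleTree) : (toAB y).OK ↔ Below y := by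
  induction y with
  | single b a => exact Iff.rfl
  | join t c f g ht hc =>
    simp only [toAB, AB.OK, Below, ht, hc]
    have h2 := vertex_to c.circle c.weight ((g, f) :: c.edges)
    rw [List.map_cons] at h2
    rw [edges_to, weight_to, circle_to]
    exact and_congr Iff.rfl (and_congr Iff.rfl (and_congr Iff.rfl (and_congr Iff.rfl
      (and_congr Iff.rfl h2))))

lemma vol_to (y : AngleTree) : (toAB y).vol = treeVol y := by
  induction y with
  | single b a => rfl
  | join t c f g ht hc =>
    simp only [toAB, AB.vol, treeVol, ht, hc]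
    rfl

lemma tangle_to (N : ℕ) (v : ℂ) (t : Tree) : tangle N v t = op N v (toTb t) := by
  induction t with
  | single b a => rfl
  | join t c ht hc =>
    simp only [tangle, toTb, op, ht, hc]
    rfl

lemma nc_to (t : Tree) : (toTb t).nc = t.children := by
  induction t with
  | single b a => rfl
  | join t c ht hc => simp only [toTb, Tb.nc, Tree.children, ht]

lemma wt_to (t : Tree) : (toTb t).wt = t.weight := by
  induction t with
  | single b a => rfl
  | join t c ht hc => simp only [toTb, Tb.wt, Tree.weight, ht]

lemma bl_to (t : Tree) : (toTb t).bl = t.circle := by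
  induction t with
  | single b a => rfl
  | join t c ht hc => simp only [toTb, Tb.bl, Tree.circle, ht]

lemma big_to {K : ℕ} {K' : ℝ} (h0 : 0 < K') (hK : K' ≤ K) {b : Bool} {n : ℕ} {a : ℤ}
    (h : Tree.Big K b n a) : Tb.BigV K' b n a := by
  intro hb
  rcases h with h | h
  · rw [hb] at h
    exact absurd h (by simp)
  · have h1 : ((K : ℝ)) ^ 2 ≤ (n : ℝ) ^ 2 + (a : ℝ) ^ 2 := by exact_mod_cast h
    nlinarith

lemma below_tb {K : ℕ} {K' : ℝ} (h0 : 0 < K') (hK : K' ≤ K) (t : Tree) (h : t.LargeBelow K) :
    (toTb t).Below K' := by
  induction t with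
  | single b a => trivial
  | join t c ht hc =>
    refine ⟨ht h.1, hc h.2.1, ?_⟩
    rw [bl_to, nc_to, wt_to]
    exact big_to h0 hK h.2.2

lemma mirror_to (t : Tree) : toTb t.mirror = Pool.Agent.TH563.UV.ngb (toTb t) := by
  induction t with
  | single b a => rfl
  | join t c ht hc =>
    simp only [Tree.mirror, toTb, ht, hc]
    rfl

/-- conversion of the ring -/
def toTs (ts : List (Tree × Tree)) : List (Tb × Tb) := ts.map fun p => (toTb p.1, toTb p.2)

lemma jones_to (m : ℤ) (ts : List (Tree × Tree)) (N : ℕ) (v : ℂ) :
    jones m ts N v = JD (toTs ts) m N v := by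
  have h : (ts.map fun p => gen (tangle N v p.1) 3 0 * gen (tangle N v p.2) 3 1).prod =
      opD N v (toTs ts) := by
    unfold opD toTs
    rw [List.map_map]
    congr 1
    refine List.map_congr_left fun p _ => ?_
    simp only [Function.comp_apply, tangle_to]
    rfl
  unfold jones JD
  rw [h]
  rfl

lemma mirror_ts (ts : List (Tree × Tree)) : toTs (mirror ts) =
    (toTs ts).map fun p => (Pool.Agent.TH563.UV.ngb p.1, Pool.Agent.TH563.UV.ngb p.2) := by
  unfold toTs mirror
  rw [List.map_map, List.map_map]
  refine List.map_congr_left fun p _ => ?_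
  simp only [Function.comp_apply, mirror_to]

lemma tj_to (ts : List (Tree × Tree)) (j : ℕ) : tj (toTs ts) j =
    toTb (((ts.map fun p => [p.1, p.2]).flatten).getD j (.single false 0)) := by
  have h1 : ((toTs ts).map fun p => [p.1, p.2]).flatten =
      ((ts.map fun p => [p.1, p.2]).flatten).map toTb := by
    unfold toTs
    induction ts with
    | nil => rfl
    | cons p ts ih =>
      simp only [List.map_cons, List.flatten_cons, List.map_append] at ih ⊢
      rw [ih]
      rfl
  unfold tj
  rw [h1, List.getD_eq_getElem?_getD, List.getD_eq_getElem?_getD, List.getElem?_map]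
  cases ((ts.map fun p => [p.1, p.2]).flatten)[j]? <;> rfl

lemma ring_to (w : ℤ) (l : List (Angles × Angles)) (f g F G f' g' F' G' : Angles) :
    VD w (l.map toFl2) (toFl f) (toFl g) (toFl F) (toFl G) (toFl f') (toFl g') (toFl F')
      (toFl G') ↔ RingCondition w l f g F G f' g' F' G' := by
  have hsum : ((l.map toFl2).map fun y => y.1.cr).sum = (l.map fun y => y.1.across).sum := by
    rw [List.map_map]
    rfl
  have hch : (l.map toFl2).IsChain Pool.Agent.W719.AR.Gap ↔ l.IsChain Gap := by
    rw [List.isChain_map]
    exact Iff.rfl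
  constructor
  · intro h
    refine ⟨h.axis, h.ca, h.cr, fun hl => (h.nil (by rw [hl]; rfl)).strand,
      fun hl => (h.nil (by rw [hl]; rfl)).even, fun hl => (h.nil (by rw [hl]; rfl)).odd,
      ?_, hch.1 h.gaps, ?_, ?_, ?_⟩
    · intro y hy
      refine h.first (toFl2 y) ?_
      rw [List.head?_map]
      exact Option.mem_map_of_mem toFl2 hy
    · intro x hx
      refine h.last (toFl2 x) ?_
      rw [List.getLast?_map]
      exact Option.mem_map_of_mem toFl2 hx
    · intro x hx
      obtain ⟨h1, h2, h3, h4⟩ := h.str (toFl2 x) (List.mem_map_of_mem hx)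
      have e : (toFl2 x).1.tw = x.1.halfTwist := rfl
      rw [e] at h1 h2 h3 h4
      change g.a + g.a' + G.b = Real.pi - x.1.halfTwist at h1
      change g.b + G.a + G.a' = Real.pi - x.1.halfTwist at h2
      change f'.a + f'.a' + F'.b = Real.pi + x.1.halfTwist at h3
      change f'.b + F'.a + F'.a' = Real.pi + x.1.halfTwist at h4
      exact ⟨by linarith, by linarith, by linarith, by linarith⟩
    · have := h.fill
      rw [hsum] at this
      exact this
  · intro h
    refine ⟨?_, h.axis, h.toAxis, h.toThird, ?_, hch.2 h.between, ?_, ?_, ?_⟩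
    · intro hl
      have hl' : l = [] := by simpa using hl
      refine ⟨h.arc hl', h.axis, h.toAxis, h.toThird, h.even hl', h.odd hl', ?_⟩
      have := h.fill
      rw [hl'] at this
      simp only [List.map_nil, List.sum_nil, mul_zero, add_zero] at this
      exact this
    · intro y hy
      rw [List.head?_map] at hy
      obtain ⟨x, hx, rfl⟩ := Option.mem_map.1 hy
      exact h.first x hx
    · intro y hy
      rw [List.getLast?_map] at hy
      obtain ⟨x, hx, rfl⟩ := Option.mem_map.1 hy
      exact h.last x hx
    · intro y hy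
      obtain ⟨x, hx, rfl⟩ := List.mem_map.1 hy
      obtain ⟨h1, h2, h3, h4⟩ := h.strands x hx
      have e : (toFl2 x).1.tw = x.1.halfTwist := rfl
      rw [e]
      change g.a + g.a' + G.b = Real.pi - x.1.halfTwist ∧ g.b + G.a + G.a' =
        Real.pi - x.1.halfTwist ∧ f'.a + f'.a' + F'.b = Real.pi + x.1.halfTwist ∧
        f'.b + F'.a + F'.a' = Real.pi + x.1.halfTwist
      exact ⟨by linarith, by linarith, by linarith, by linarith⟩
    · rw [hsum]
      exact h.fill

lemma vol_ring (ts : List (Tree × Tree)) (y : ℕ → AngleTree) (f g F G : ℕ → Angles) :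
    dVol (2 * ts.length) (fun j => toAB (y j)) (fun j => toFl (f j)) (fun j => toFl (g j))
      (fun j => toFl (F j)) (fun j => toFl (G j)) = vol ts y f g F G := by
  unfold dVol vol
  refine sum_congr rfl fun j _ => ?_
  rw [vol_to]
  rfl

lemma toTs_len (ts : List (Tree × Tree)) : (toTs ts).length = ts.length := by simp [toTs]

lemma angle_iff (m : ℤ) (ts : List (Tree × Tree)) (y : ℕ → AngleTree) (f g F G : ℕ → Angles) :
    (Pool.Agent.Y482.DX.PC (2 * ts.length) m
      fun j => tj (toTs ts) (rv (2 * ts.length) j)) (fun j => toAB (y j)) (fun j => toFl (f j))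
      (fun j => toFl (g j)) (fun j => toFl (F j)) (fun j => toFl (G j)) ↔
      IsAngle m ts y f g F G := by
  constructor
  · rintro ⟨h0, h1⟩
    refine ⟨?_, h1.pos, h1.diag, ?_, h1.fill⟩
    · intro j hj
      refine ⟨toTb_inj _ _ ?_, ?_⟩
      · rw [← shape_to, h0 j hj]
        beta_reduce
        rw [tj_to]
        rfl
      · rw [← below_to]
        exact h1.tree j hj
    · intro j hj
      have h3 := h1.vert j hj
      rw [← ring_to, ← edges_to, ← weight_to]
      exact h3
  · intro h1
    refine ⟨?_, ⟨h1.positive, h1.diagonals, ?_, ?_, h1.axis⟩⟩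
    · intro j hj
      beta_reduce
      rw [shape_to, (h1.trees j hj).1, tj_to]
      rfl
    · intro j hj
      exact (below_to _).2 (h1.trees j hj).2
    · intro j hj
      have h3 := (ring_to _ _ _ _ _ _ _ _ _ _).2 (h1.roots j hj)
      rw [← edges_to, ← weight_to] at h3
      exact h3

/-! Conversion of flattenings. -/

/-- conversion of angles -/
def toAn (f : Angles) : Pool.Agent.TH563.UV.Arb.Angles := ⟨f.a, f.b, f.c, f.a', f.b', f.c'⟩

/-- conversion of angles -/
def ofAn (f : Pool.Agent.TH563.UV.Arb.Angles) : Angles := ⟨f.a, f.b, f.c, f.a', f.b', f.c'⟩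

/-- conversion of labels -/
def toLt (f : Labels) : Pool.Agent.TH563.CV.Labels := ⟨f.a, f.b, f.c, f.a', f.b', f.c'⟩

/-- conversion of labels -/
def ofLt (f : Pool.Agent.TH563.CV.Labels) : Labels := ⟨f.a, f.b, f.c, f.a', f.b', f.c'⟩

/-- conversion of labels -/
def toLr (f : Labels) : Pool.Agent.Y482.Cv.Labels := ⟨f.a, f.b, f.c, f.a', f.b', f.c'⟩

/-- conversion of labels -/
def ofLr (f : Pool.Agent.Y482.Cv.Labels) : Labels := ⟨f.a, f.b, f.c, f.a', f.b', f.c'⟩

/-- conversion of pieces -/
def toTP (x : TreePiece) : Pool.Agent.TH563.CV.Piece :=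
  ⟨toAn x.f, toAn x.g, toLt x.F, toLt x.G, toLt x.B, toLt x.H, x.n1, x.n2, x.n3, x.n4⟩

/-- conversion of pieces -/
def ofTP (x : Pool.Agent.TH563.CV.Piece) : TreePiece :=
  ⟨ofAn x.f, ofAn x.g, ofLt x.F, ofLt x.G, ofLt x.B, ofLt x.H, x.n1, x.n2, x.n3, x.n4⟩

/-- conversion of pieces -/
def toRP (x : RingPiece) : Pool.Agent.Y482.Cv.Piece :=
  ⟨toLr x.f, toLr x.g, toLr x.F, toLr x.G, x.n1, x.n2, x.n3, x.n4⟩

/-- conversion of pieces -/
def ofRP (x : Pool.Agent.Y482.Cv.Piece) : RingPiece :=
  ⟨ofLr x.f, ofLr x.g, ofLr x.F, ofLr x.G, x.n1, x.n2, x.n3, x.n4⟩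

/-- conversion of trees -/
def toFT : FlatTree → Pool.Agent.TH563.CV.FlatTree
  | .single b a => .single b a
  | .join t c x => .join (toFT t) (toFT c) (toTP x)

/-- conversion of trees -/
def ofFT : Pool.Agent.TH563.CV.FlatTree → FlatTree
  | .single b a => .single b a
  | .join t c x => .join (ofFT t) (ofFT c) (ofTP x)

lemma toFT_of : ∀ t : Pool.Agent.TH563.CV.FlatTree, toFT (ofFT t) = t
  | .single _ _ => rfl
  | .join t c x => by
    simp only [toFT, ofFT]
    rw [toFT_of t, toFT_of c]
    rfl

lemma edges_FT : ∀ t : FlatTree, (toFT t).edges = t.edges.map toTP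
  | .single _ _ => rfl
  | .join t c x => by
    simp only [toFT, Pool.Agent.TH563.CV.FlatTree.edges, FlatTree.edges, List.map_append]
    rw [edges_FT t]
    rfl

lemma angles_FT : ∀ t : FlatTree,
    Pool.Agent.TH563.UV.Arb.toAB (toFT t).angles = toAB t.angles
  | .single _ _ => rfl
  | .join t c x => by
    simp only [toFT, Pool.Agent.TH563.CV.FlatTree.angles, FlatTree.angles,
      Pool.Agent.TH563.UV.Arb.toAB, toAB]
    rw [angles_FT t, angles_FT c]
    rfl

lemma weight_FT : ∀ t : FlatTree, (toFT t).angles.weight = t.angles.weight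
  | .single _ _ => rfl
  | .join t c x => by
    simp only [toFT, Pool.Agent.TH563.CV.FlatTree.angles, FlatTree.angles,
      Pool.Agent.TH563.UV.Arb.AngleTree.weight, AngleTree.weight]
    exact weight_FT t

lemma circle_FT : ∀ t : FlatTree, (toFT t).angles.circle = t.angles.circle
  | .single _ _ => rfl
  | .join t c x => by
    simp only [toFT, Pool.Agent.TH563.CV.FlatTree.angles, FlatTree.angles,
      Pool.Agent.TH563.UV.Arb.AngleTree.circle, AngleTree.circle]
    exact circle_FT t

lemma across_FT (l : List TreePiece) :
    (l.map toTP).map Pool.Agent.TH563.CU.across = l.map TreePiece.across := by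
  rw [List.map_map]
  rfl

lemma vertex_FT (b : Bool) (w : ℤ) (s : TreePiece) (l : List TreePiece) :
    Pool.Agent.Y482.DX.VxFlat b w (toTP s) (l.map toTP) ↔ VertexFlat b w s l := by
  constructor
  · intro h
    refine ⟨⟨h.ends.1, fun x hx => h.ends.2 _ (List.mem_map_of_mem hx)⟩, ?_,
      fun hl => h.nil (by rw [hl]; rfl), ?_, ?_, ?_⟩
    · have := h.front
      rw [across_FT] at this
      exact this
    · intro y hy
      refine h.first (toTP y) ?_
      rw [List.head?_map]
      exact Option.mem_map_of_mem toTP hy
    · have := h.between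
      rw [List.isChain_map] at this
      exact this
    · intro y hy
      refine h.last (toTP y) ?_
      rw [List.getLast?_map]
      exact Option.mem_map_of_mem toTP hy
  · intro h
    refine ⟨⟨h.ends.1, ?_⟩, ?_, ?_, ?_, ?_, ?_⟩
    · intro y hy
      obtain ⟨x, hx, rfl⟩ := List.mem_map.1 hy
      exact h.ends.2 x hx
    · rw [across_FT]
      exact h.fill
    · intro hl
      exact h.leaf (by simpa using hl)
    · intro y hy
      rw [List.head?_map] at hy
      obtain ⟨x, hx, rfl⟩ := Option.mem_map.1 hy
      exact h.first x hx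
    · rw [List.isChain_map]
      exact h.between
    · intro y hy
      rw [List.getLast?_map] at hy
      obtain ⟨x, hx, rfl⟩ := Option.mem_map.1 hy
      exact h.last x hx

lemma below_FT : ∀ t : FlatTree, Pool.Agent.Y482.DX.BelowX (toFT t) ↔ t.Below
  | .single _ _ => Iff.rfl
  | .join t c x => by
    simp only [toFT, Pool.Agent.Y482.DX.BelowX, FlatTree.Below]
    rw [below_FT t, below_FT c, circle_FT, weight_FT, edges_FT]
    exact and_congr Iff.rfl (and_congr Iff.rfl (and_congr Iff.rfl
      (vertex_FT c.angles.circle c.angles.weight x.swap c.edges)))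

lemma sum_FT : ∀ t : FlatTree, (toFT t).complexVolume = t.sum
  | .single _ _ => rfl
  | .join t c x => by
    simp only [toFT, Pool.Agent.TH563.CV.FlatTree.complexVolume, FlatTree.sum]
    rw [sum_FT t, sum_FT c]
    rfl

lemma root_FT (j : ℕ) (w : ℤ) (l : List TreePiece) (x y : RingPiece) :
    Pool.Agent.Y482.DX.VFl j w (l.map toTP) (toRP x) (toRP y) ↔ RootFlat j w l x y := by
  constructor
  · intro h
    refine ⟨fun x hx => h.ends _ (List.mem_map_of_mem hx), ?_,
      fun hl => h.nil (by rw [hl]; rfl), ?_, ?_, ?_, h.out⟩
    · have := h.fill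
      rw [across_FT] at this
      exact this
    · intro y hy
      refine h.first (toTP y) ?_
      rw [List.head?_map]
      exact Option.mem_map_of_mem toTP hy
    · have := h.between
      rw [List.isChain_map] at this
      exact this
    · intro y hy
      refine h.last (toTP y) ?_
      rw [List.getLast?_map]
      exact Option.mem_map_of_mem toTP hy
  · intro h
    refine ⟨?_, ?_, ?_, ?_, ?_, ?_, h.out⟩
    · intro y hy
      obtain ⟨x, hx, rfl⟩ := List.mem_map.1 hy
      exact h.ends x hx
    · rw [across_FT]
      exact h.fill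
    · intro hl
      exact h.leaf (by simpa using hl)
    · intro y hy
      rw [List.head?_map] at hy
      obtain ⟨x, hx, rfl⟩ := Option.mem_map.1 hy
      exact h.first x hx
    · rw [List.isChain_map]
      exact h.between
    · intro y hy
      rw [List.getLast?_map] at hy
      obtain ⟨x, hx, rfl⟩ := Option.mem_map.1 hy
      exact h.last x hx

lemma flat_iff (n : ℕ) (t : ℕ → FlatTree) (x : ℕ → RingPiece) :
    Pool.Agent.Y482.DX.DFlat n (-2) (fun j => toFT (t j)) (fun j => toRP (x j)) ↔ IsFlat n t x := by
  constructor
  · intro h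
    refine ⟨h.inner, fun j hj => (below_FT _).1 (h.tree j hj), fun j hj => ?_, h.axis⟩
    have h1 := h.vert j hj
    rw [edges_FT, weight_FT] at h1
    exact (root_FT _ _ _ _ _).1 h1
  · intro h
    refine ⟨h.inner, fun j hj => (below_FT _).2 (h.trees j hj), fun j hj => ?_, h.axis⟩
    rw [edges_FT, weight_FT]
    exact (root_FT _ _ _ _ _).2 (h.roots j hj)

lemma dsum_eq (n : ℕ) (f g F G : ℕ → Angles) (t : ℕ → FlatTree) (x : ℕ → RingPiece) :
    Pool.Agent.Y482.DX.dsum n (fun j => toFl (f j)) (fun j => toFl (g j)) (fun j => toFl (F j))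
      (fun j => toFl (G j)) (fun j => toFT (t j)) (fun j => toRP (x j)) =
      dilogSum n f g F G t x := by
  unfold Pool.Agent.Y482.DX.dsum dilogSum
  congr 1
  exact sum_congr rfl fun j _ => sum_FT (t j)

/-- transport of the complex volume -/
lemma complexVolume_of {m : ℤ} {ts : List (Tree × Tree)} {V C : ℝ}
    (h : Pool.Agent.Y482.DX.CVC (2 * ts.length) (-2)
      (Pool.Agent.Y482.DX.PC (2 * ts.length) m fun j => tj (toTs ts) (rv (2 * ts.length) j)) V C) :
    ComplexVolume m ts V C := by
  obtain ⟨h1, ⟨f, g, F, G, t, x, a1, a2, a3⟩, h3⟩ := h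
  refine ⟨?_, ⟨fun j => ofFl (f j), fun j => ofFl (g j), fun j => ofFl (F j),
    fun j => ofFl (G j), fun j => ofFT (t j), fun j => ofRP (x j), ?_, ?_, ?_⟩, ?_⟩
  · have e : {W : ℝ | ∃ (y : ℕ → AngleTree) (f g F G : ℕ → Angles), IsAngle m ts y f g F G ∧
        vol ts y f g F G = W} =
        {W : ℝ | ∃ (y : ℕ → AB) (f g F G : ℕ → Fl),
          (Pool.Agent.Y482.DX.PC (2 * ts.length) m fun j => tj (toTs ts) (rv (2 * ts.length) j)) y f g F G ∧
          dVol (2 * ts.length) y f g F G = W} := by
      ext W
      constructor
      · rintro ⟨y, f, g, F, G, k1, k2⟩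
        exact ⟨fun j => toAB (y j), fun j => toFl (f j), fun j => toFl (g j),
          fun j => toFl (F j), fun j => toFl (G j), (angle_iff m ts y f g F G).2 k1, by
            rw [vol_ring]; exact k2⟩
      · rintro ⟨y, f, g, F, G, k1, k2⟩
        refine ⟨fun j => ofAB (y j), fun j => ofFl (f j), fun j => ofFl (g j),
          fun j => ofFl (F j), fun j => ofFl (G j), (angle_iff m ts _ _ _ _ _).1 ?_, ?_⟩
        · simp only [toAB_of]
          exact k1
        · rw [← vol_ring]
          simp only [toAB_of]
          exact k2
    rw [e]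
    exact h1
  · refine (angle_iff m ts _ _ _ _ _).1 ?_
    simp only [← angles_FT, toFT_of]
    exact a1
  · rw [← vol_ring]
    simp only [← angles_FT, toFT_of]
    exact a2
  · refine (flat_iff _ _ _).1 ?_
    simp only [toFT_of]
    exact a3
  · intro f g F G t x b1 b2 b3
    rw [← dsum_eq]
    refine h3 _ _ _ _ _ _ ?_ ?_ ((flat_iff _ _ _).2 b3)
    · simp only [angles_FT]
      exact (angle_iff m ts _ _ _ _ _).2 b1
    · simp only [angles_FT]
      rw [vol_ring]
      exact b2

lemma asymptotics_of {J : ℕ → ℂ} {V C : ℝ} {y : ℕ → ℂ} (hy : y 0 ≠ 0)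
    (h : EXY J ((V + Complex.I * C) / (2 * Real.pi)) y) : Asymptotics J V C := by
  obtain ⟨r1, _, r3, r4, _⟩ := Pool.Agent.W460.AX.rat _ _ y hy h
  have hodd : oddTop ≤ atTop := inf_le_left
  have hpi : (Real.pi : ℂ) ≠ 0 := by exact_mod_cast Real.pi_ne_zero
  refine ⟨hodd r1, ?_, ?_, y 0, hy, h.leading.mono_left hodd⟩
  · have e1 : 2 * Real.pi * (((V : ℂ) + Complex.I * C) / (2 * Real.pi)).re = V := by
      have e2 : ((V : ℂ) + Complex.I * C) / (2 * Real.pi) =
          ((V / (2 * Real.pi) : ℝ) : ℂ) + ((C / (2 * Real.pi) : ℝ) : ℂ) * Complex.I := by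
        push_cast
        ring
      rw [e2, Complex.add_re, Complex.re_ofReal_mul, Complex.I_re, mul_zero, add_zero,
        Complex.ofReal_re]
      field_simp
    rw [e1] at r4
    exact r4.mono_left hodd
  · have e1 : ((V : ℂ) + Complex.I * C) / Real.pi =
        2 * (((V : ℂ) + Complex.I * C) / (2 * Real.pi)) := by
      field_simp
    rw [e1]
    exact r3.mono_left hodd

/-- the factor of the framing and the sign -/
lemma kashaev_eq (e f m : ℤ) (ts : List (Tree × Tree)) (N : ℕ) : kashaev e f m ts N =
    Pool.Agent.Y482.DX.fr e f N * JD (toTs ts) m N (Pool.Agent.W711.HT.vN N) := by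
  unfold kashaev
  rw [jones_to]
  rfl

lemma cont (m : ℤ) (ts : List (Tree × Tree)) {N : ℕ} (hN : 1 ≤ N) :
    ContinuousAt (jones m ts N) (root N) := by
  have h1 : jones m ts N = JD (toTs ts) m N := by
    funext v
    exact jones_to m ts N v
  rw [h1]
  exact Pool.Agent.Y481.DR.cnd' (toTs ts) m N hN

lemma bound_of {M : ℝ} {x : ℤ} (hx : (⌈M⌉₊ : ℤ) ≤ |x|) : M ≤ |(x : ℝ)| := by
  have h1 : ((⌈M⌉₊ : ℤ) : ℝ) ≤ ((|x| : ℤ) : ℝ) := by exact_mod_cast hx
  rw [Int.cast_abs] at h1
  have h2 := Nat.le_ceil M
  have h3 : ((⌈M⌉₊ : ℤ) : ℝ) = (⌈M⌉₊ : ℝ) := by push_cast; rfl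
  linarith

lemma ok_of {K M : ℝ} (hK : 0 < K) {D : ℕ} {ts : List (Tree × Tree)}
    (h : ∀ p ∈ ts, p.1.Admissible ⌈K⌉₊ D ⌈M⌉₊ ∧ p.2.Admissible ⌈K⌉₊ D ⌈M⌉₊) :
    Pool.Agent.Y482.DX.OkR K D M (toTs ts) := by
  constructor
  · intro q hq
    obtain ⟨p, hp, rfl⟩ := List.mem_map.1 hq
    simp only [bl_to]
    exact ⟨(h p hp).1.1, (h p hp).2.1⟩
  · intro q hq
    obtain ⟨p, hp, rfl⟩ := List.mem_map.1 hq
    obtain ⟨⟨_, a2, a3, a4⟩, ⟨_, b2, b3, b4⟩⟩ := h p hp
    simp only [nc_to, wt_to]
    exact ⟨below_tb hK (Nat.le_ceil K) _ a4, below_tb hK (Nat.le_ceil K) _ b4, a2, b2,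
      bound_of a3, bound_of b3⟩

/-- **The complexified volume conjecture along the odd integers for highly twisted links on Conway's
polyhedra `(2 k)*`.**
There is an absolute constant `K`, and for all `D` there is an `M` such that the following holds for all
`k ≥ 1` and `m ≥ 0`, `(k, m) ≠ (1, 0)`, for the link `L` which is the closure of
`(s_1 s_2 s_1)^{2 m} T_1 U_1 ⋯ T_k U_k`, with the tangles of `2 k` weighted trees, and for its mirror
image `L*` (all weights and `m` negated), if the roots of the trees have weights of absolute value at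
least `M` and at most `D` children, and all other vertices of the trees are large (`K² ≤ n² + a²`) or
have a crossing circle.
(1) For every `N ≥ 1` the coloured Jones polynomials are continuous at `v_N`, so that `kashaev` is
their value at `q = e^(2 π i / N)` in the usual sense.
(2) There are real numbers `V`, `C` such that `V + i C` is the complex volume of the complement of
`L`: `V` is the maximal volume of the angle structures (by Casson and Rivin a point of maximum is
the complete hyperbolic structure, and `V` is the hyperbolic volume), and `C` is modulo `π²` the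
Chern-Simons invariant by Neumann's formula, for every flattening; the complex volume of the
complement of `L*` is then `V - i C`.
(3) Along the odd integers `n`, with `a_n = J_n(L)`, for all framings `e` and signs `f`, and with the
representative `C' = C + 2 π² (e + f)` of the Chern-Simons invariant: `a_n ≠ 0` for large `n`,
`2 π log |a_n| / n → V`, `a_{n+2} / a_n → exp ((V + i C') / π)`, and
`a_n / (n^{3/2} exp (n (V + i C') / 2 π))` has a limit other than `0`.
(4) The same holds for `L*` with `-C` instead of `C`. -/
theorem result : ∃ K : ℕ, ∀ D : ℕ, ∃ M : ℕ, ∀ (m : ℕ) (ts : List (Tree × Tree)),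
    ts ≠ [] → ¬ (ts.length = 1 ∧ m = 0) →
    (∀ p ∈ ts, p.1.Admissible K D M ∧ p.2.Admissible K D M) →
    (∀ N : ℕ, 1 ≤ N → ContinuousAt (jones m ts N) (root N) ∧
      ContinuousAt (jones (-m) (mirror ts) N) (root N)) ∧
    ∃ V C : ℝ, ComplexVolume m ts V C ∧ ∀ e f : ℤ,
      Asymptotics (kashaev e f m ts) V (C + 2 * Real.pi ^ 2 * (e + f)) ∧
      Asymptotics (kashaev e f (-m) (mirror ts)) V (-C + 2 * Real.pi ^ 2 * (e + f)) := by
  obtain ⟨K, hK, h, -⟩ := Pool.Agent.Y482.DX.allf
  refine ⟨⌈K⌉₊, fun D => ?_⟩
  obtain ⟨M, hM⟩ := h D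
  refine ⟨⌈M⌉₊, fun m ts hts hkm hok => ⟨fun N hN => ⟨cont _ _ hN, cont _ _ hN⟩, ?_⟩⟩
  obtain ⟨V, C, h1, h2⟩ := hM (toTs ts) m (by simpa [toTs] using hts)
    (by simpa [toTs] using hkm) (ok_of hK hok)
  rw [toTs_len] at h1
  refine ⟨V, C, complexVolume_of h1, fun e f => ?_⟩
  obtain ⟨⟨y, hy, hE⟩, ⟨y', hy', hE'⟩⟩ := h2 e f
  constructor
  · refine asymptotics_of hy (J := kashaev e f m ts) ?_
    have e1 : kashaev e f m ts = fun N => Pool.Agent.Y482.DX.fr e f N *
        JD (toTs ts) m N (Pool.Agent.W711.HT.vN N) := funext fun N => kashaev_eq e f m ts N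
    rw [e1]
    exact hE
  · refine asymptotics_of hy' (J := kashaev e f (-m) (mirror ts)) ?_
    have e1 : kashaev e f (-m) (mirror ts) = fun N => Pool.Agent.Y482.DX.fr e f N *
        JD (Pool.Agent.Y482.DX.mir (toTs ts)) (-m) N (Pool.Agent.W711.HT.vN N) := by
      funext N
      rw [kashaev_eq, mirror_ts]
      rfl
    rw [e1]
    exact hE'

end Pool.Agent.Results.MP_b30479_gt.PolyhedralLinksOdd
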