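import Pool.Agent.Y472.K.Out
import Pool.Agent.H756R3.J.Cont
import Pool.Agent.H105R3.JSanCurl
import Pool.Agent.H309R4.Jones.SanU
import Pool.Agent.H550R3.Jones.SanSkein699

/-!
# The complexified volume conjecture at odd roots of unity for the Turk's head links

The links are the closures of the 3-braids `(s_1 s_2⁻¹)^n`, `n ≥ 4`: knots (`8_18` for `n = 4`, `10_123`
for `n = 5`) if `n` is not divisible by `3`, links with three components if it is.  (For `n = 2` it is
the figure eight knot, for `n = 3` the Borromean rings.)  They are alternating, with `2 n` crossings,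
and not arborescent.  The statement is explicit: all `n ≥ 4`, no large parameters.

The invariants are defined from the R-matrix of `U_q(sl_2)`, with `v = q^{1/2}` and
`{k} = v^k - v^{-k}`.  The `N`-coloured Jones polynomial `cjones N n w v` of the closure of a braid
word `w` on `n + 1` strands is the entry at the highest weight vector of the partial quantum trace
(over all strands but the first one) of the operator of `w` on the tensor power of the
`N`-dimensional irreducible representation.  The crossings carry the framing correction and the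
unknot has value `1`.  The Kashaev invariant is its value at `v = exp (π i / N)`, that is
`q = exp (2 π i / N)`.

The complement of the closure of `(s_1 s_2⁻¹)^n`, `n ≥ 2`, is hyperbolic (Thurston), and its volume is
`4 n (Λ(β + δ) + Λ(β - δ))`, `δ = π / (2 n)`, `2 β = arccos (cos 2 δ - 1/2)`, `Λ` Lobachevsky's function
(A. D. Mednykh, A. Yu. Vesnin, Hyperbolic volumes of Fibonacci manifolds, Siberian Math. J. 36
(1995)).  For `n = 2, 3, 4, 5` the values are `2.0298…`, `7.3277…`, `12.3509…`, `17.0857…`.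
The word `(s_1 s_2⁻¹)^n` is conjugate to its mirror image `(s_1⁻¹ s_2)^n` (conjugate by
`s_1 s_2 s_1` and rotate): the link is amphicheiral, its Chern-Simons invariant is `0`, and the
complex volume `vol + i CS` is `vol n`.
-/

set_option autoImplicit false

namespace Pool.Agent.Results.MP_b30479_gt.TurkHeadOdd

open Finset Filter Topology

/-! ### The coloured Jones polynomial -/

/-- `{n} = v^n - v^{-n}` -/
noncomputable def br (v : ℂ) (n : ℤ) : ℂ := v ^ n - v ^ (-n)

/-- `{n}! = {1} {2} ⋯ {n}` -/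
noncomputable def brf (v : ℂ) (n : ℕ) : ℂ := ∏ j ∈ range n, br v ((j : ℤ) + 1)

/-- The positive crossing: the R-matrix of `U_q(sl_2)` on `V_N ⊗ V_N`, `V_N` with basis
`e_0, …, e_{N-1}`, times the framing factor `v^{-(N^2-1)/2}`; `crossP N v p q` is the coefficient
of `e_{p.1} ⊗ e_{p.2}` in the image of `e_{q.1} ⊗ e_{q.2}`:
`e_i ⊗ e_j ↦ ∑_n v^{-(N-1)(1+i+j) + 2(i-n)(j+n) + n(n-1)/2}
({j+n}! / ({j}! {n}!)) ∏_{t<n} {N-i+t} e_{j+n} ⊗ e_{i-n}`. -/
noncomputable def crossP (N : ℕ) (v : ℂ) : Matrix (Fin N × Fin N) (Fin N × Fin N) ℂ :=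
  fun p q => if (p.1 : ℕ) + p.2 = q.1 + q.2 ∧ (q.2 : ℕ) ≤ p.1 then
    v ^ (-((N : ℤ) - 1) * (1 + (q.1 : ℕ) + (q.2 : ℕ)) + 2 * (p.1 : ℕ) * (p.2 : ℕ)) *
      v ^ (((p.1 : ℕ) - q.2) * ((p.1 : ℕ) - q.2 - 1) / 2) *
      (brf v p.1 / (brf v q.2 * brf v ((p.1 : ℕ) - q.2))) *
      ∏ t ∈ range ((p.1 : ℕ) - q.2), br v ((N : ℤ) - (q.1 : ℕ) + t)
    else 0

/-- The negative crossing, inverse of `crossP N v`:
`e_i ⊗ e_j ↦ ∑_n (-1)^n v^{(N-1)(1+i+j) - 2ij - n(n-1)/2}
({i+n}! / ({i}! {n}!)) ∏_{t<n} {N-j+t} e_{j-n} ⊗ e_{i+n}`. -/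
noncomputable def crossN (N : ℕ) (v : ℂ) : Matrix (Fin N × Fin N) (Fin N × Fin N) ℂ :=
  fun p q => if (p.1 : ℕ) + p.2 = q.1 + q.2 ∧ (q.1 : ℕ) ≤ p.2 then
    (-1) ^ ((p.2 : ℕ) - q.1) *
      v ^ (((N : ℤ) - 1) * (1 + (q.1 : ℕ) + (q.2 : ℕ)) - 2 * (q.1 : ℕ) * (q.2 : ℕ)) /
      v ^ (((p.2 : ℕ) - q.1) * ((p.2 : ℕ) - q.1 - 1) / 2) *
      (brf v p.2 / (brf v q.1 * brf v ((p.2 : ℕ) - q.1))) *
      ∏ t ∈ range ((p.2 : ℕ) - q.1), br v ((N : ℤ) - (q.2 : ℕ) + t)
    else 0

/-- The braid generator `s_k` on `n` strands (it acts on the strands number `k` and `k + 1`,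
counted from `0`) by the crossing matrix `A`. -/
def gen {ι : Type} [DecidableEq ι] (A : Matrix (ι × ι) (ι × ι) ℂ) (n k : ℕ) :
    Matrix (Fin n → ι) (Fin n → ι) ℂ :=
  fun s t => if h : k + 1 < n then
    (if ∀ j : Fin n, (j : ℕ) ≠ k → (j : ℕ) ≠ k + 1 → s j = t j then
      A (s ⟨k, by omega⟩, s ⟨k + 1, h⟩) (t ⟨k, by omega⟩, t ⟨k + 1, h⟩) else 0)
    else (if s = t then 1 else 0)

/-- The operator of a braid word on `n` strands: the letter `(k, true)` is `s_k`, the letter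
`(k, false)` is its inverse; `P` and `Q` are the matrices of the two crossings. -/
def rep {ι : Type} [Fintype ι] [DecidableEq ι] (P Q : Matrix (ι × ι) (ι × ι) ℂ) (n : ℕ)
    (w : List (ℕ × Bool)) : Matrix (Fin n → ι) (Fin n → ι) ℂ :=
  (w.map fun g => gen (if g.2 then P else Q) n g.1).prod

/-- The partial trace over all strands but the first one, with weights `k`; `n + 1` strands. -/
def tail {ι : Type} [Fintype ι] (k : ι → ℂ) (n : ℕ)
    (A : Matrix (Fin (n + 1) → ι) (Fin (n + 1) → ι) ℂ) : Matrix ι ι ℂ :=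
  fun i j => ∑ s : Fin n → ι, (∏ x, k (s x)) * A (Fin.cons i s) (Fin.cons j s)

/-- The `N`-coloured Jones polynomial (unknot `= 1`) of the closure of the braid word `w` on
`n + 1` strands, at `q = v^2`: the entry at the highest weight vector `e_0` of the partial quantum
trace, with the weights `v^{N-1-2x}` of `K`. -/
noncomputable def cjones (N n : ℕ) (w : List (ℕ × Bool)) (v : ℂ) : ℂ :=
  if h : 0 < N then
    tail (fun x : Fin N => v ^ ((N : ℤ) - 1 - 2 * (x : ℕ))) n
      (rep (crossP N v) (crossN N v) (n + 1) w) ⟨0, h⟩ ⟨0, h⟩ else 0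

/-! ### The links -/

/-- The braid `(s_1 s_2⁻¹)^n` on three strands; the strands are numbered `0`, `1`, `2`, and `s_1`,
`s_2` are the generators number `0` and `1`. -/
def turk (n : ℕ) : List (ℕ × Bool) := (List.replicate n [(0, true), (1, false)]).flatten

/-- `v_N = exp (π i / N)`, so that `q = v_N^2 = exp (2 π i / N)`. -/
noncomputable def root (N : ℕ) : ℂ := Complex.exp (Real.pi * Complex.I / N)

/-- The Kashaev invariant of the closure of a braid on three strands. -/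
noncomputable def kashaev (w : List (ℕ × Bool)) (N : ℕ) : ℂ := cjones N 2 w (root N)

/-! ### The hyperbolic volume -/

/-- Lobachevsky's function `Λ(x) = -∫_0^x log |2 sin t| dt`. -/
noncomputable def Lob (x : ℝ) : ℝ := -∫ t in (0 : ℝ)..x, Real.log |2 * Real.sin t|

/-- `δ = π / (2 n)` -/
noncomputable def delta (n : ℕ) : ℝ := Real.pi / (2 * n)

/-- `β = arccos (cos 2 δ - 1/2) / 2` -/
noncomputable def beta (n : ℕ) : ℝ := Real.arccos (Real.cos (2 * delta n) - 1 / 2) / 2

/-- The hyperbolic volume of the complement of the closure of `(s_1 s_2⁻¹)^n` (Mednykh, Vesnin). -/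
noncomputable def vol (n : ℕ) : ℝ := 4 * n * (Lob (beta n + delta n) + Lob (beta n - delta n))

/-- The filter of the odd integers tending to infinity. -/
def oddTop : Filter ℕ := atTop ⊓ 𝓟 {N | Odd N}

/-- The conclusion of the complexified volume conjecture along the odd integers for the sequence `J`,
with the complex volume `V` (real): nonvanishing, `2 π log |J N| / N → V`,
`J (N + 2) / J N → exp (V / π)`, `π log (J (N + 2) / J N) → V` (principal branch), and moreover `J N` is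
asymptotic to `N^{3/2} exp (N V / 2 π) ∑_j a_j N^{-j}` to all orders, with real numbers `a_j` and
`a_0 > 0`. -/
def Asymptotics (J : ℕ → ℂ) (V : ℝ) : Prop :=
  (∀ᶠ N : ℕ in oddTop, J N ≠ 0) ∧
  Tendsto (fun N : ℕ => 2 * Real.pi * (Real.log ‖J N‖ / N)) oddTop (𝓝 V) ∧
  Tendsto (fun N : ℕ => J (N + 2) / J N) oddTop (𝓝 (Complex.exp ((V / Real.pi : ℝ) : ℂ))) ∧
  Tendsto (fun N : ℕ => (Real.pi : ℂ) * Complex.log (J (N + 2) / J N)) oddTop (𝓝 (V : ℂ)) ∧
  ∃ a : ℕ → ℝ, 0 < a 0 ∧ ∀ K : ℕ, ∃ C : ℝ, ∀ᶠ N : ℕ in oddTop,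
    ‖J N / (((N : ℝ) ^ (3 / 2 : ℝ) * Real.exp (N * V / (2 * Real.pi)) : ℝ) : ℂ) -
      ∑ j ∈ range K, (a j : ℂ) / (N : ℂ) ^ j‖ ≤ C / (N : ℝ) ^ K

/-! ### Checks of the definitions (not part of the result) -/

/-- For `N = 2` the crossings satisfy the skein relation of the Jones polynomial. -/
theorem skein (v : ℂ) (hv : v ≠ 0) (h1 : br v 1 ≠ 0) :
    v ^ 2 • crossP 2 v - (v ^ 2)⁻¹ • crossN 2 v =
      (v - v⁻¹) • (1 : Matrix (Fin 2 × Fin 2) (Fin 2 × Fin 2) ℂ) :=
  Pool.Agent.H550R3.Jones.taskSanSkein v hv h1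

/-- The two crossings are inverse to each other. -/
theorem cross_inverse (N : ℕ) (v : ℂ) (hv : v ≠ 0)
    (h : ∀ k : ℕ, 0 < k → k < N → br v k ≠ 0) :
    crossP N v * crossN N v = 1 ∧ crossN N v * crossP N v = 1 :=
  Pool.Agent.H309R4.Jones.SanI.taskSanInv Pool.Agent.H345J.taskMod Pool.Agent.H345J.taskInv
    Pool.Agent.H559R3.J.taskCross N v ⟨hv, h⟩

/-- The Yang-Baxter equation, for every colour. -/
theorem yang_baxter (N : ℕ) (v : ℂ) (hv : v ≠ 0) (h : ∀ k : ℕ, 0 < k → k < N → br v k ≠ 0) :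
    gen (crossP N v) 3 0 * gen (crossP N v) 3 1 * gen (crossP N v) 3 0 =
      gen (crossP N v) 3 1 * gen (crossP N v) 3 0 * gen (crossP N v) 3 1 :=
  Pool.Agent.H927R2.J.SanYB.taskSanYB Pool.Agent.H345J.taskMod Pool.Agent.H345J.taskInt
    Pool.Agent.H345J.taskInv Pool.Agent.H667J.taskHex1 Pool.Agent.H22R3.J.taskNat
    Pool.Agent.H559R3.J.taskCross N v ⟨hv, h⟩

/-- Curls may be removed: the framing is normalised. -/
theorem curl (N : ℕ) (v : ℂ) (hv : v ≠ 0) (h : ∀ k : ℕ, 0 < k → k < N → br v k ≠ 0) :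
    (fun i j => ∑ x : Fin N, v ^ ((N : ℤ) - 1 - 2 * (x : ℕ)) * crossP N v (i, x) (j, x)) =
      (1 : Matrix (Fin N) (Fin N) ℂ) ∧
    (fun i j => ∑ x : Fin N, v ^ ((N : ℤ) - 1 - 2 * (x : ℕ)) * crossN N v (i, x) (j, x)) =
      (1 : Matrix (Fin N) (Fin N) ℂ) :=
  Pool.Agent.H105R3.JSan.taskSanCurl N v ⟨hv, h⟩

/-- The unknot has the value `1`. -/
theorem unknot (N : ℕ) (v : ℂ) (hN : 0 < N) (hv : v ≠ 0)
    (h : ∀ k : ℕ, 0 < k → k < N → br v k ≠ 0) :
    cjones N 0 [] v = 1 ∧ cjones N 1 [(0, true)] v = 1 ∧ cjones N 1 [(0, false)] v = 1 :=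
  Pool.Agent.H309R4.Jones.SanU.taskSanUnknot N v hN ⟨hv, h⟩

/-! ### Bridges -/

lemma turk_eq (n : ℕ) : turk n = Pool.Agent.Y472.bw (List.replicate n (1, -1)) := by
  rw [Pool.Agent.Y472.bw, List.map_replicate]
  rfl

lemma vol_eq (n : ℕ) (hn : 4 ≤ n) : vol n = 2 * Real.pi * Pool.Agent.Y472.K.Dn n := by
  have hn0 : (n : ℝ) ≠ 0 := by
    have : n ≠ 0 := by omega
    exact_mod_cast this
  have h : 2 * (Real.pi / (2 * (n : ℝ))) = Real.pi / n := by
    field_simp
  rw [Pool.Agent.Y472.K.vol n hn, vol, Lob, Lob, beta, delta, h]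

lemma cont (n N : ℕ) (hN : 1 ≤ N) : ContinuousAt (cjones N 2 (turk n)) (root N) := by
  have hv : root N = EvenVol.v0 N := rfl
  rw [hv]
  refine Pool.Agent.H756R3.J.taskCont N (EvenVol.v0 N) (Complex.exp_ne_zero _) ?_ _ _
  intro k hk0 hkN
  exact Pool.Agent.W715.VC.br_ne (by omega) (by omega)

lemma kashaev_eq (n : ℕ) : kashaev (turk n) = Pool.Agent.Y472.K.Out.JJ n := by
  funext N
  rw [Pool.Agent.Y472.K.Out.JJ, ← turk_eq]
  rfl

lemma ex (n : ℕ) (hn : 4 ≤ n) : ∃ a : ℕ → ℝ,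
    Pool.Agent.Y472.K.Out.Ex (kashaev (turk n)) (vol n) a := by
  rw [kashaev_eq, vol_eq n hn]
  exact Pool.Agent.Y472.K.Out.ex n hn

lemma im_zero (n N : ℕ) (hn : 1 ≤ n) (hN : 2 ≤ N) : (kashaev (turk n) N).im = 0 := by
  rw [kashaev_eq]
  exact Pool.Agent.Y472.K.turk_real n N hn hN

/-- **The complexified volume conjecture along the odd integers for the Turk's head links.**
Let `n ≥ 4`, and let `L` be the closure of the 3-braid `(s_1 s_2⁻¹)^n`.
(1) For every `N ≥ 1` the coloured Jones polynomial is continuous at `v_N`, so that `kashaev` is its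
value at `q = e^(2 π i / N)` in the usual sense.
(2) For odd `N → ∞`: `a_N = ⟨L⟩_N ≠ 0` for large `N`, `2 π log |a_N| / N → vol n`,
`π log (a_{N+2} / a_N) → vol n`, and `a_N` has an asymptotic expansion to all orders with a positive
leading coefficient. -/
theorem result (n : ℕ) (hn : 4 ≤ n) :
    (∀ N : ℕ, 1 ≤ N → ContinuousAt (cjones N 2 (turk n)) (root N)) ∧
    Asymptotics (kashaev (turk n)) (vol n) := by
  obtain ⟨a, h⟩ := ex n hn
  have hodd : oddTop ≤ atTop := inf_le_left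
  have h1 := h.ratio 2
  have e1 : (((2 : ℕ) : ℝ) * vol n / (2 * Real.pi)) = vol n / Real.pi := by
    have := Real.pi_ne_zero
    push_cast
    field_simp
  rw [e1] at h1
  have h2 : Tendsto (fun N : ℕ => (Real.pi : ℂ) * Complex.log (kashaev (turk n) (N + 2) /
      kashaev (turk n) N)) atTop (𝓝 (vol n : ℂ)) := by
    have h3 : ContinuousAt Complex.log (Complex.exp ((vol n / Real.pi : ℝ) : ℂ)) := by
      apply continuousAt_clog
      rw [← Complex.ofReal_exp]
      exact Complex.ofReal_mem_slitPlane.2 (Real.exp_pos _)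
    have h4 := (h3.tendsto.comp h1).const_mul (Real.pi : ℂ)
    rw [← Complex.ofReal_exp, ← Complex.ofReal_log (Real.exp_pos _).le, Real.log_exp] at h4
    have e2 : (Real.pi : ℂ) * ((vol n / Real.pi : ℝ) : ℂ) = (vol n : ℂ) := by
      have : (Real.pi : ℂ) ≠ 0 := by exact_mod_cast Real.pi_ne_zero
      push_cast
      field_simp
    rw [e2] at h4
    exact h4
  refine ⟨fun N hN => cont n N hN, h.ne.filter_mono hodd, h.log.mono_left hodd,
    h1.mono_left hodd, h2.mono_left hodd, a, h.pos, fun K => ?_⟩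
  obtain ⟨C, hC⟩ := h.exp K
  exact ⟨C, hC.filter_mono hodd⟩

end Pool.Agent.Results.MP_b30479_gt.TurkHeadOdd
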